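import Pool.Agent.T6.H19.DV.Rows

/-!
Change of the rows.
-/

set_option autoImplicit false

open MvPolynomial Pool.Agent.TH145.GH
open scoped Matrix
open Pool.Agent.TH145.GC (Ev Ti tv wv Dual)

namespace Pool.Agent.T6.H19.DV

section

variable {K : Type} [Field K] {R S : Type} [Fintype R] [Fintype S] [DecidableEq R] [DecidableEq S]
  {ρ r' s' : ℕ}

/-- The coefficients of the rows. -/
noncomputable def pa (N : Matrix R S K) (α : Fin ρ ⊕ Fin r' ≃ R) (β : Fin ρ ⊕ Fin s' ≃ S) :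
    Matrix R (Fin ρ) K := pf N (α ∘ Sum.inl) (β ∘ Sum.inl)

/-- The coefficients of the columns. -/
noncomputable def qa (N : Matrix R S K) (α : Fin ρ ⊕ Fin r' ≃ R) (β : Fin ρ ⊕ Fin s' ≃ S) :
    Matrix (Fin ρ) S K := qf N (α ∘ Sum.inl) (β ∘ Sum.inl)

variable {N : Matrix R S K} {α : Fin ρ ⊕ Fin r' ≃ R} {β : Fin ρ ⊕ Fin s' ≃ S}

omit [Fintype S] [DecidableEq S] in
theorem wa_pa (h : mna N α β ≠ 0) : wa N α β * pa N α β = 0 := by
  have h1 : (pa N α β).submatrix (α ∘ Sum.inl) id = 1 := pf_sub h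
  have h2 : ∀ {T : Type} (g : T → R), (1 : Matrix R R K).submatrix g id * pa N α β =
      (pa N α β).submatrix g id := by
    intro T g
    ext i j
    simp [Matrix.mul_apply, Matrix.one_apply]
  have h3 : wa N α β = (1 : Matrix R R K).submatrix (α ∘ Sum.inr) id -
      (pa N α β).submatrix (α ∘ Sum.inr) id * (1 : Matrix R R K).submatrix (α ∘ Sum.inl) id := rfl
  rw [h3, Matrix.sub_mul, Matrix.mul_assoc, h2, h2, h1, Matrix.mul_one, sub_self]

omit [Fintype R] [DecidableEq R] in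
theorem qa_va (h : mna N α β ≠ 0) : qa N α β * va N α β = 0 := by
  have h1 : (qa N α β).submatrix id (β ∘ Sum.inl) = 1 := qf_sub h
  have h2 : ∀ {T : Type} (g : T → S), qa N α β * (1 : Matrix S S K).submatrix id g =
      (qa N α β).submatrix id g := by
    intro T g
    ext i j
    simp [Matrix.mul_apply, Matrix.one_apply]
  have h3 : va N α β = (1 : Matrix S S K).submatrix id (β ∘ Sum.inr) -
      (1 : Matrix S S K).submatrix id (β ∘ Sum.inl) * (qa N α β).submatrix id (β ∘ Sum.inr) := rfl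
  rw [h3, Matrix.mul_sub, ← Matrix.mul_assoc, h2, h2, h1, Matrix.one_mul, sub_self]

variable {α0 α1 : Fin ρ ⊕ Fin r' ≃ R} {β0 β1 : Fin ρ ⊕ Fin s' ≃ S}

omit [Fintype S] [DecidableEq S] in
theorem det_wa (h : mna N α1 β1 ≠ 0) : ∃ ε : K, (ε = 1 ∨ ε = -1) ∧
    ((wa N α1 β1).submatrix id (α0 ∘ Sum.inr)).det =
      ε * ((pa N α1 β1).submatrix (α0 ∘ Sum.inl) id).det := by
  refine compl_det α0 α1 (pa N α1 β1) (wa N α1 β1) (pf_sub h) ?_ (wa_pa h)
  ext i j
  rw [Matrix.submatrix_apply, Matrix.one_apply]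
  exact wa_inr i j

omit [Fintype R] [DecidableEq R] in
theorem det_va (h : mna N α1 β1 ≠ 0) : ∃ ε : K, (ε = 1 ∨ ε = -1) ∧
    ((va N α1 β1).submatrix (β0 ∘ Sum.inr) id).det =
      ε * ((qa N α1 β1).submatrix id (β0 ∘ Sum.inl)).det := by
  obtain ⟨ε, hε, h1⟩ := compl_det β0 β1 (qa N α1 β1)ᵀ (va N α1 β1)ᵀ (by
    have h2 : (qa N α1 β1).submatrix id (β1 ∘ Sum.inl) = 1 := qf_sub h
    have h3 := congrArg Matrix.transpose h2
    rw [Matrix.transpose_one] at h3
    exact h3) (by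
    ext i j
    rw [Matrix.submatrix_apply, Matrix.one_apply, Matrix.transpose_apply]
    have := va_inr (N := N) (α := α1) (β := β1) j i
    refine this.trans ?_
    by_cases hij : i = j
    · rw [if_pos hij, if_pos hij.symm]
    · rw [if_neg hij, if_neg (Ne.symm hij)]) (by
    rw [← Matrix.transpose_mul, qa_va h, Matrix.transpose_zero])
  refine ⟨ε, hε, ?_⟩
  have h2 : ∀ {A B C D : Type} (M : Matrix A B K) (f : C → B) (g : D → A),
      Mᵀ.submatrix f g = (M.submatrix g f)ᵀ := fun _ _ _ => rfl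
  rw [h2, h2, Matrix.det_transpose, Matrix.det_transpose] at h1
  exact h1

omit [Fintype R] [DecidableEq R] [Fintype S] [DecidableEq S] in
/-- The minors in terms of the factorization. -/
theorem mna_eq (hv : Van N (ρ + 1)) (h : mna N α1 β1 ≠ 0) :
    mna N α0 β0 = ((pa N α1 β1).submatrix (α0 ∘ Sum.inl) id).det * mna N α1 β1 *
      ((qa N α1 β1).submatrix id (β0 ∘ Sum.inl)).det := by
  have h1 : N = pa N α1 β1 * N.submatrix (α1 ∘ Sum.inl) (β1 ∘ Sum.inl) * qa N α1 β1 := fact' hv h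
  have h2 : N.submatrix (α0 ∘ Sum.inl) (β0 ∘ Sum.inl) =
      (pa N α1 β1).submatrix (α0 ∘ Sum.inl) id * N.submatrix (α1 ∘ Sum.inl) (β1 ∘ Sum.inl) *
        (qa N α1 β1).submatrix id (β0 ∘ Sum.inl) := by
    conv_lhs => rw [h1]
    rfl
  have h3 : mna N α0 β0 = (N.submatrix (α0 ∘ Sum.inl) (β0 ∘ Sum.inl)).det := rfl
  rw [h3, h2, Matrix.det_mul, Matrix.det_mul]
  rfl

end

variable {K : Type} [Field K] {n : ℕ} {R S X : Type} [Fintype R] [Fintype S] [DecidableEq R]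
  [DecidableEq S] {ρ r' s' d : ℕ} {F : R × S → MvPolynomial (Fin (n + 1)) K}
  {D : R × S → (Fin (n + 1) →₀ ℕ) → Derivation ℤ K K} {E : X → Derivation ℤ K K}

/-- The matrix of the rows. -/
noncomputable def mt (d : ℕ) (F : R × S → MvPolynomial (Fin (n + 1)) K)
    (D : R × S → (Fin (n + 1) →₀ ℕ) → Derivation ℤ K K) (E : X → Derivation ℤ K K)
    (x : Fin (n + 1) → K) (e : Fin (n + 1)) (α : Fin ρ ⊕ Fin r' ≃ R) (β : Fin ρ ⊕ Fin s' ≃ S)
    (b : Finset (Ix X n R S)) (σ : b ⊕ (Fin r' × Fin s') → Fin (n + 1)) :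
    Matrix (b ⊕ (Fin r' × Fin s')) (b ⊕ (Fin r' × Fin s')) K :=
  Matrix.of fun i j => rv d F D E x e α β (ri i) (σ j)

section

variable {x : Fin (n + 1) → K} {α0 α1 : Fin ρ ⊕ Fin r' ≃ R} {β0 β1 : Fin ρ ⊕ Fin s' ≃ S}

open scoped Classical in
theorem det_change (hF : ∀ p, (F p).IsHomogeneous d) (e0 : Fin (n + 1)) {e1 : Fin (n + 1)}
    (he1 : x e1 ≠ 0) (hm1 : mna (NN F x) α1 β1 ≠ 0) {b : Finset (Ix X n R S)}
    (σ : b ⊕ (Fin r' × Fin s') → Fin (n + 1))
    (hspan : Sp d F D E x ≤ Submodule.span K (gen d F D E x '' b)) :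
    ∃ ε : K, (ε = 1 ∨ ε = -1) ∧ (mt d F D E x e0 α0 β0 b σ).det =
      ε * ((x e0 ^ d / x e1 ^ d) ^ (r' * s') *
        (((pa (NN F x) α1 β1).submatrix (α0 ∘ Sum.inl) id).det ^ s' *
        ((qa (NN F x) α1 β1).submatrix id (β0 ∘ Sum.inl)).det ^ r') *
        (mt d F D E x e1 α1 β1 b σ).det) := by
  obtain ⟨c, hc⟩ : ∃ c, c = x e0 ^ d / x e1 ^ d := ⟨_, rfl⟩
  rw [← hc]
  have h1 : ∀ p : Fin r' × Fin s', ∃ G : b → K,
      rv d F D E x e0 α0 β0 (Sum.inr p) =
        ∑ o : b, G o • gen d F D E x o + ∑ q : Fin r' × Fin s',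
          (c * (wa (NN F x) α1 β1 q.1 (α0 (Sum.inr p.1)) *
            va (NN F x) α1 β1 (β0 (Sum.inr p.2)) q.2)) •
            rv d F D E x e1 α1 β1 (Sum.inr q) := by
    intro p
    have h2 := hspan (Ev_mod_all (D := D) (E := E) (α := α1) (β := β1) hF he1 hm1
      (α0 (Sum.inr p.1)) (β0 (Sum.inr p.2)) (Finsupp.degree_single e0 d))
    have h3 : gen d F D E x '' b = Set.range fun o : b => gen d F D E x o := by
      rw [Set.image_eq_range]
      rfl
    rw [h3, Submodule.mem_span_range_iff_exists_fun] at h2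
    obtain ⟨G, hG⟩ := h2
    refine ⟨G, ?_⟩
    rw [hG, mon_single, ← hc]
    rw [Fintype.sum_prod_type, Finset.smul_sum]
    simp only [Finset.smul_sum, smul_smul]
    have h4 : ∀ q : Fin r' × Fin s', rv d F D E x e1 α1 β1 (Sum.inr q) =
      Ev D x (α1 (Sum.inr q.1), β1 (Sum.inr q.2)) (Finsupp.single e1 d) := fun _ => rfl
    simp only [h4]
    rw [sub_add_cancel]
    rfl
  choose G hG using h1
  obtain ⟨C, hC⟩ : ∃ C : Matrix (Fin r' × Fin s') (Fin r' × Fin s') K, C = c •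
      Matrix.kroneckerMap (· * ·) ((wa (NN F x) α1 β1).submatrix id (α0 ∘ Sum.inr))ᵀ
        ((va (NN F x) α1 β1).submatrix (β0 ∘ Sum.inr) id) := ⟨_, rfl⟩
  have hmt : mt d F D E x e0 α0 β0 b σ =
      Matrix.fromBlocks 1 0 (Matrix.of G) C * mt d F D E x e1 α1 β1 b σ := by
    ext i j
    rw [Matrix.mul_apply, Fintype.sum_sum_type]
    rcases i with o | p
    · rw [Finset.sum_eq_single o, Finset.sum_eq_zero, add_zero, Matrix.fromBlocks_apply₁₁,
        Matrix.one_apply, if_pos rfl, one_mul]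
      · rfl
      · intro q _
        rw [Matrix.fromBlocks_apply₁₂, Matrix.zero_apply, zero_mul]
      · intro o' _ ho
        rw [Matrix.fromBlocks_apply₁₁, Matrix.one_apply, if_neg ho.symm, zero_mul]
      · intro h; exact absurd (Finset.mem_univ _) h
    · have h2 : mt d F D E x e0 α0 β0 b σ (Sum.inr p) j =
        rv d F D E x e0 α0 β0 (Sum.inr p) (σ j) := rfl
      rw [h2, hG, Pi.add_apply, Finset.sum_apply, Finset.sum_apply]
      congr 1
      refine Finset.sum_congr rfl fun q _ => ?_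
      rw [Matrix.fromBlocks_apply₂₂, hC]
      rfl
  obtain ⟨ε1, hε1, h2⟩ := det_wa (α0 := α0) hm1
  obtain ⟨ε2, hε2, h3⟩ := det_va (β0 := β0) hm1
  have h4 : C.det = c ^ (r' * s') *
      ((ε1 * ((pa (NN F x) α1 β1).submatrix (α0 ∘ Sum.inl) id).det) ^ s' *
      (ε2 * ((qa (NN F x) α1 β1).submatrix id (β0 ∘ Sum.inl)).det) ^ r') := by
    rw [hC, Matrix.det_smul, Fintype.card_prod, Fintype.card_fin, Fintype.card_fin]
    have h5 := Matrix.det_kronecker ((wa (NN F x) α1 β1).submatrix id (α0 ∘ Sum.inr))ᵀ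
        ((va (NN F x) α1 β1).submatrix (β0 ∘ Sum.inr) id)
    rw [Fintype.card_fin, Fintype.card_fin, Matrix.det_transpose, h2, h3] at h5
    rw [← h5]
  refine ⟨ε1 ^ s' * ε2 ^ r', ?_, ?_⟩
  · have h5 : ∀ (ε : K) (m : ℕ), (ε = 1 ∨ ε = -1) → (ε ^ m = 1 ∨ ε ^ m = -1) := by
      rintro ε m (rfl | rfl)
      · left; rw [one_pow]
      · exact neg_one_pow_eq_or K m
    rcases h5 ε1 s' hε1 with h | h <;> rcases h5 ε2 r' hε2 with h' | h' <;> rw [h, h'] <;> simp
  · rw [hmt, Matrix.det_mul, Matrix.det_fromBlocks_zero₁₂, Matrix.det_one, one_mul, h4, mul_pow,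
      mul_pow]
    ring

end

end Pool.Agent.T6.H19.DV
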