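import Pool.Agent.T6.H19.DV.Rank

/-!
The height inequality for the points where the minors vanish.
-/

set_option autoImplicit false

open MvPolynomial FF Pool.Agent.TH145.GH Pool.Agent.TH145.MG Pool.Agent.W602.GT
  Pool.Agent.W603.LV Pool.Agent.W603.PV
open Pool.Agent.TH145.GC (Ev Ti tv wv Dual Tan der_zero_of_alg Gen Cf finite_cf)

namespace Pool.Agent.T6.H19.DV

/-- The condition on the sizes and the degree. -/
def Cond (r s d t m : ℕ) : Prop := s ≤ r ∧ ∀ ρ < t, 2 * m + 2 ≤ (s - ρ) * (d * r + (r - ρ))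

theorem cond_of {r s d t m : ℕ} (hsr : s ≤ r)
    (h : 2 * m + 2 ≤ (s + 1 - t) * (d * r + (r + 1 - t))) : Cond r s d t m := by
  refine ⟨hsr, fun ρ hρ => h.trans ?_⟩
  exact Nat.mul_le_mul (by omega) (Nat.add_le_add_left (by omega) _)

section poly

variable {A B : Type} [CommRing A] [CommRing B] {n t : ℕ} {R S : Type}

/-- The minor of a matrix of polynomials. -/
noncomputable def mp (F : R × S → MvPolynomial (Fin (n + 1)) A) (f : Fin t → R) (g : Fin t → S) :
    MvPolynomial (Fin (n + 1)) A := (Matrix.of fun i j => F (f i, g j)).det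

theorem map_mp (φ : A →+* B) (F : R × S → MvPolynomial (Fin (n + 1)) A) (f : Fin t → R)
    (g : Fin t → S) : map φ (mp F f g) = mp (fun p => map φ (F p)) f g := by
  unfold mp
  rw [RingHom.map_det]
  rfl

end poly

theorem eval_mp {K : Type} [Field K] {n t : ℕ} {R S : Type}
    (F : R × S → MvPolynomial (Fin (n + 1)) K) (x : Fin (n + 1) → K) (f : Fin t → R)
    (g : Fin t → S) : eval x (mp F f g) = mnr (NN F x) f g := by
  unfold mp mnr
  rw [RingHom.map_det]
  rfl

/-- The minors vanish if the rank is small. -/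
theorem van_of_rank {K : Type} [Field K] {t : ℕ} {R S : Type} [Fintype R] [Fintype S]
    {N : Matrix R S K} (h : N.rank < t) : Van N t := by
  classical
  intro f g
  by_contra h0
  have h1 : LinearIndependent K (N.submatrix f g).row := by
    rw [Matrix.linearIndependent_rows_iff_isUnit, Matrix.isUnit_iff_isUnit_det]
    exact isUnit_iff_ne_zero.2 h0
  have h2 : LinearIndependent K (fun i => N (f i)) := by
    refine LinearIndependent.of_comp (LinearMap.funLeft K K g) ?_
    exact h1
  have h3 : t ≤ N.rank := by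
    rw [Matrix.rank_eq_finrank_span_row]
    have h4 := finrank_span_eq_card h2
    rw [Fintype.card_fin] at h4
    rw [← h4]
    refine Submodule.finrank_mono (Submodule.span_mono ?_)
    rintro _ ⟨i, rfl⟩
    exact ⟨f i, rfl⟩
  omega

/-- The rank is small if the minors vanish. -/
theorem rank_of_van {K : Type} [Field K] {t : ℕ} {R S : Type} [Fintype R] [Fintype S]
    {N : Matrix R S K} (h : Van N t) : N.rank < t := by
  classical
  obtain ⟨ρ, hρ, hv, f, g, hfg⟩ := exists_rank h
  have h2 : N = N.submatrix id g * (N.submatrix f g)⁻¹ * N.submatrix f id := fact hv hfg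
  rw [h2]
  refine lt_of_le_of_lt (Matrix.rank_mul_le_right _ _) ?_
  refine lt_of_le_of_lt (Matrix.rank_le_card_height _) ?_
  rwa [Fintype.card_fin]

section

variable {k K : Type} [Field k] [Field K] [Algebra k K] {n : ℕ} {R S X : Type} [Fintype R]
  [Fintype S] {d : ℕ} {F : R × S → MvPolynomial (Fin (n + 1)) K}
  {D : R × S → (Fin (n + 1) →₀ ℕ) → Derivation ℤ K K} {E : X → Derivation ℤ K K}
  {e : Place k K → ℤ}

/-- The height inequality for all points. -/
theorem Data.ineq_all [IsAlgClosed k] [CharZero k] [IsFF k K] (hdat : Data k d F D E e) {m t : ℕ}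
    (hc : Cond (Fintype.card R) (Fintype.card S) d t m) {x : Fin (n + 1) → K}
    (hx0 : x ≠ 0) (hrk : Module.finrank K (Fu d F D E x) ≤ m + 1) (hv : Van (NN F x) t) :
    pht k x ≤ ∑ᶠ P, (n + 1 + Fintype.card R * Fintype.card S) * (2 * e P) := by
  classical
  obtain ⟨ρ, hρ, hv', f, g, hfg⟩ := exists_rank hv
  obtain ⟨hsr, hc⟩ := hc
  have h1 := hc ρ hρ
  have hρs : ρ ≤ Fintype.card S := by
    by_contra hcon
    rw [Nat.sub_eq_zero_of_le (by omega), zero_mul] at h1
    omega
  obtain ⟨α, hα⟩ := exists_ext (r' := Fintype.card R - ρ) (mnr_inj_row hfg) (by omega)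
  obtain ⟨β, hβ⟩ := exists_ext (r' := Fintype.card S - ρ) (mnr_inj_col hfg) (by omega)
  have hα' : α ∘ Sum.inl = f := funext hα
  have hβ' : β ∘ Sum.inl = g := funext hβ
  have h2 : d * (ρ + (Fintype.card R - ρ)) + (Fintype.card R - ρ) =
      d * Fintype.card R + (Fintype.card R - ρ) := by
    congr 2
    omega
  exact hdat.ineq (α := α) (β := β) (by rw [h2]; exact h1) (by omega) hx0 hrk hv' (by
    unfold mna
    rw [hα', hβ']
    exact hfg)

/-- The data without vertical vector fields. -/
theorem Data.ofGC (h : Pool.Agent.TH145.GC.Data k F (fun _ => d) D e)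
    (hc : ∀ P p u, Ge P (-e P) ((F p).coeff u)) :
    Data k d F D (fun ξ : Empty => ξ.elim) e :=
  ⟨h.hom, h.dual, fun ξ => ξ.elim, fun P => ⟨h.hom, h.dual, fun ξ => ξ.elim, h.e_nonneg P,
    hc P, h.loss P, fun _ _ ξ => ξ.elim⟩, h.fin⟩

end

end Pool.Agent.T6.H19.DV
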