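import Pool.Agent.TH145.GC.Det

/-!
Orders of determinants at a place, from functionals that are small on the rows.
-/

set_option autoImplicit false

open FF Pool.Agent.W603.LV Matrix

namespace Pool.Agent.T6.H19.DV

variable {k L : Type} [Field k] [Field L] [Algebra k L]

/-- The determinant of the matrix bordered by functionals and vectors. -/
theorem det_border {R Q : Type} [Fintype R] [DecidableEq R] [Fintype Q] [DecidableEq Q]
    (V : Matrix R R L) (Y U : Matrix Q R L) (A : Matrix Q Q L) (hV : IsUnit V.det) :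
    V.det * A.det =
      (fromBlocks Vᵀ Uᵀ (Y * Vᵀ) (A + Y * Uᵀ)).det := by
  have hVt : IsUnit Vᵀ.det := by rwa [det_transpose]
  let _ := Vᵀ.invertibleOfIsUnitDet hVt
  rw [det_fromBlocks₁₁, det_transpose]
  congr 2
  rw [invOf_eq_nonsing_inv, Matrix.mul_assoc Y, Matrix.mul_nonsing_inv _ hVt, Matrix.mul_one,
    add_sub_cancel_right]

/-- The order of a determinant whose rows are integral, and on whose rows the functionals `y q` are
integral, if the values of the functionals at other integral vectors have large poles. -/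
theorem det_lattice (P : Place k L) {R Q : Type} [Fintype R] [DecidableEq R] [Fintype Q]
    [DecidableEq Q] (V : Matrix R R L) (Y U : Matrix Q R L) (A : Matrix Q Q L) (c : ℤ)
    (hV : ∀ i j, Ge P (-c) (V i j)) (hU : ∀ i j, Ge P (-c) (U i j))
    (hYV : ∀ q i, Ge P (-c) ((Y * Vᵀ) q i))
    (hYU : ∀ q q', Ge P (-c) (A q q' + (Y * Uᵀ) q q')) (hA : A.det ≠ 0) (hdet : V.det ≠ 0) :
    -(P.ord A.det) - (Fintype.card R + Fintype.card Q) * c ≤ P.ord V.det := by
  have h1 := det_border V Y U A (isUnit_iff_ne_zero.2 hdet)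
  have h2 := Pool.Agent.TH145.GC.ge_det P (fromBlocks Vᵀ Uᵀ (Y * Vᵀ) (A + Y * Uᵀ)) (c := c) (by
    rintro (i | i) (j | j)
    · exact hV j i
    · exact hU j i
    · exact hYV i j
    · exact hYU i j)
  rw [← h1] at h2
  have h3 := h2.resolve_left (mul_ne_zero hdet hA)
  rw [P.ord_mul hdet hA, Fintype.card_sum] at h3
  push_cast at h3
  linarith

end Pool.Agent.T6.H19.DV
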