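import Pool.Agent.T6.H19.DV.Scl

/-!
The local estimate.
-/

set_option autoImplicit false

open MvPolynomial Pool.Agent.TH145.GH FF Pool.Agent.W603.LV
open Pool.Agent.TH145.GC (Ev Ti tv wv Dual ge_det)

namespace Pool.Agent.T6.H19.DV

/-- The data of the inequality at a place. -/
structure LD {k K : Type} [Field k] [Field K] [Algebra k K] (P : Place k K) {n : ℕ} {R S X : Type}
    (d : ℕ) (F : R × S → MvPolynomial (Fin (n + 1)) K)
    (D : R × S → (Fin (n + 1) →₀ ℕ) → Derivation ℤ K K) (E : X → Derivation ℤ K K)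
    (e : ℤ) : Prop where
  hom : ∀ p, (F p).IsHomogeneous d
  dual : Dual F (fun _ => d) D
  vert : ∀ ξ p u, E ξ ((F p).coeff u) = 0
  e_nonneg : 0 ≤ e
  coef : ∀ p u, Ge P (-e) ((F p).coeff u)
  loss : ∀ f, Ge P 0 f → ∀ p, ∀ I : Fin (n + 1) →₀ ℕ, I.degree = d → Ge P (-e) (D p I f)
  lossE : ∀ f, Ge P 0 f → ∀ ξ, Ge P (-e) (E ξ f)

/-- The data of the inequality at the places. -/
structure Data (k : Type) {K : Type} [Field k] [Field K] [Algebra k K] {n : ℕ} {R S X : Type}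
    (d : ℕ) (F : R × S → MvPolynomial (Fin (n + 1)) K)
    (D : R × S → (Fin (n + 1) →₀ ℕ) → Derivation ℤ K K) (E : X → Derivation ℤ K K)
    (e : Place k K → ℤ) : Prop where
  hom : ∀ p, (F p).IsHomogeneous d
  dual : Dual F (fun _ => d) D
  vert : ∀ ξ p u, E ξ ((F p).coeff u) = 0
  loc : ∀ P, LD P d F D E (e P)
  fin : {P | e P ≠ 0}.Finite

variable {k K : Type} [Field k] [Field K] [Algebra k K] {n : ℕ} {R S X : Type} [Fintype R]
  [Fintype S] [DecidableEq R] [DecidableEq S] {ρ r' s' d : ℕ}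
  {F : R × S → MvPolynomial (Fin (n + 1)) K}
  {D : R × S → (Fin (n + 1) →₀ ℕ) → Derivation ℤ K K} {E : X → Derivation ℤ K K}
  {P : Place k K} {e : ℤ}

omit [DecidableEq R] [DecidableEq S] in
theorem LD.ge_Rop (hdat : LD P d F D E e) {f : K} (hf : Ge P 0 f) (a a' : R) :
    Ge P (-(2 * e)) (Rop F D a a' f) := by
  rw [Rop_apply]
  refine Ge.sum _ _ fun b _ => Ge.sum _ _ fun I hI => ?_
  exact ((hdat.coef _ I).mul (hdat.loss f hf _ I (deg_of_mem (hdat.hom _) hI))).mono (by omega)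

omit [DecidableEq R] [DecidableEq S] in
theorem LD.ge_Cop (hdat : LD P d F D E e) {f : K} (hf : Ge P 0 f) (b b' : S) :
    Ge P (-(2 * e)) (Cop F D b b' f) := by
  rw [Cop_apply]
  refine Ge.sum _ _ fun a _ => Ge.sum _ _ fun I hI => ?_
  exact ((hdat.coef _ I).mul (hdat.loss f hf _ I (deg_of_mem (hdat.hom _) hI))).mono (by omega)

omit [DecidableEq R] [DecidableEq S] in
theorem LD.ge_rv (hdat : LD P d F D E e) {x : Fin (n + 1) → K}
    (hx : ∀ l, Ge P 0 (x l)) (e1 : Fin (n + 1)) (α : Fin ρ ⊕ Fin r' ≃ R)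
    (β : Fin ρ ⊕ Fin s' ≃ S) (i : Ix X n R S ⊕ (Fin r' × Fin s')) (l : Fin (n + 1)) :
    Ge P (-(2 * e)) (rv d F D E x e1 α β i l) := by
  have he := hdat.e_nonneg
  rcases i with (_ | ξ | t | p | p) | p
  · exact (hx l).mono (by omega)
  · exact (hdat.lossE _ (hx l) ξ).mono (by omega)
  · simp only [rv, gen, tv]
    split_ifs with ht
    · refine Ge.mono (by omega : -(2 * e) ≤ 0 + -e) (Ge.sub ?_ ?_)
      · exact (hx _).mul (hdat.loss _ (hx l) _ _ (by rw [map_add, Finsupp.degree_single, ht]))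
      · exact (hx _).mul (hdat.loss _ (hx l) _ _ (by rw [map_add, Finsupp.degree_single, ht]))
    · exact Ge.zero
  · exact hdat.ge_Rop (hx l) _ _
  · exact hdat.ge_Cop (hx l) _ _
  · exact (hdat.loss _ (hx l) _ _ (Finsupp.degree_single _ _)).mono (by omega)

/-- The functionals. -/
noncomputable def Eta (F : R × S → MvPolynomial (Fin (n + 1)) K) (x : Fin (n + 1) → K)
    (α : Fin ρ ⊕ Fin r' ≃ R) (β : Fin ρ ⊕ Fin s' ≃ S) (q : Fin ρ × Fin s') :
    (Fin (n + 1) → K) →ₗ[K] K where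
  toFun z := Hm (NN F x) (α ∘ Sum.inl) (β ∘ Sum.inl) (β ∘ Sum.inr) (dN F x z) q.1 q.2
  map_add' y z := by rw [map_add, Hm_add]; rfl
  map_smul' c z := by rw [map_smul, Hm_smul]; rfl

section

variable {x : Fin (n + 1) → K} {α : Fin ρ ⊕ Fin r' ≃ R} {β : Fin ρ ⊕ Fin s' ≃ S}

omit [Fintype R] [DecidableEq R] in
theorem Eta_apply (q : Fin ρ × Fin s') (z : Fin (n + 1) → K) : Eta F x α β q z =
    Hm (NN F x) (α ∘ Sum.inl) (β ∘ Sum.inl) (β ∘ Sum.inr) (dN F x z) q.1 q.2 := rfl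

omit [Fintype R] in
/-- The functional on the elementary matrices. -/
theorem Hm_single (N : Matrix R S K) (k : Fin ρ) (j : Fin s') (a : R) (j' : Fin s') :
    Hm N (α ∘ Sum.inl) (β ∘ Sum.inl) (β ∘ Sum.inr) (Matrix.single a (β (Sum.inr j')) 1) k j =
      if j' = j then ∑ l, if a = α (Sum.inl l) then
        (N.submatrix (α ∘ Sum.inl) (β ∘ Sum.inl))⁻¹ k l else 0 else 0 := by
  unfold Hm
  have h1 : ∀ l, ((Matrix.single a (β (Sum.inr j')) (1 : K)).submatrix (α ∘ Sum.inl) id *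
      vm N (α ∘ Sum.inl) (β ∘ Sum.inl) (β ∘ Sum.inr)) l j =
      if a = α (Sum.inl l) then (if j' = j then 1 else 0) else 0 := by
    intro l
    rw [Matrix.mul_apply, Finset.sum_eq_single (β (Sum.inr j'))]
    · have h2 := va_inr (N := N) (α := α) (β := β) j' j
      unfold va at h2
      rw [h2, Matrix.submatrix_apply, Matrix.single_apply]
      by_cases h : a = α (Sum.inl l)
      · rw [if_pos ⟨h, rfl⟩, if_pos h, one_mul]
      · rw [if_neg (fun h' => h h'.1), if_neg h, zero_mul]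
    · intro b _ hb
      rw [Matrix.submatrix_apply, Matrix.single_apply, if_neg (fun h' => hb h'.2.symm), zero_mul]
    · intro h; exact absurd (Finset.mem_univ _) h
  rw [Matrix.mul_apply]
  by_cases hj : j' = j
  · rw [if_pos (c := j' = j) hj]
    refine Finset.sum_congr rfl fun l _ => ?_
    rw [h1]
    by_cases h : a = α (Sum.inl l)
    · rw [if_pos h, if_pos h, if_pos hj, mul_one]
    · rw [if_neg h, if_neg h, mul_zero]
  · rw [if_neg (c := j' = j) hj]
    refine Finset.sum_eq_zero fun l _ => ?_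
    rw [h1, if_neg (c := j' = j) hj, ite_self, mul_zero]

omit [Fintype R] in
theorem Hm_single_inl (N : Matrix R S K) (k : Fin ρ) (j : Fin s') (k' : Fin ρ) (j' : Fin s') :
    Hm N (α ∘ Sum.inl) (β ∘ Sum.inl) (β ∘ Sum.inr)
      (Matrix.single (α (Sum.inl k')) (β (Sum.inr j')) 1) k j =
      (N.submatrix (α ∘ Sum.inl) (β ∘ Sum.inl))⁻¹ k k' * (1 : Matrix (Fin s') (Fin s') K) j j' := by
  rw [Hm_single, Matrix.one_apply, Finset.sum_eq_single k']
  · rw [if_pos rfl]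
    by_cases h : j' = j
    · rw [if_pos h, if_pos h.symm, mul_one]
    · rw [if_neg h, if_neg (Ne.symm h), mul_zero]
  · intro l _ hl
    rw [if_neg]
    intro h
    exact hl (by simpa using α.injective h.symm)
  · intro h; exact absurd (Finset.mem_univ _) h

omit [Fintype R] in
theorem Hm_single_inr (N : Matrix R S K) (k : Fin ρ) (j : Fin s') (i : Fin r') (j' : Fin s') :
    Hm N (α ∘ Sum.inl) (β ∘ Sum.inl) (β ∘ Sum.inr)
      (Matrix.single (α (Sum.inr i)) (β (Sum.inr j')) 1) k j = 0 := by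
  rw [Hm_single]
  have h1 : (∑ l, if α (Sum.inr i) = α (Sum.inl l) then
        (N.submatrix (α ∘ Sum.inl) (β ∘ Sum.inl))⁻¹ k l else 0) = 0 := by
    refine Finset.sum_eq_zero fun l _ => ?_
    rw [if_neg]
    intro h
    exact absurd (α.injective h) (by simp)
  rw [h1, ite_self]

end

omit [Fintype R] in
theorem ge_Hm_der {P : Place k K} {N : Matrix R S K} (hv : Van N (ρ + 1))
    {α : Fin ρ ⊕ Fin r' ≃ R} {β : Fin ρ ⊕ Fin s' ≃ S}
    (hm : Mini P N (α ∘ Sum.inl) (β ∘ Sum.inl)) (D' : Derivation ℤ K K) {c : ℤ}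
    (hD' : ∀ f, Ge P 0 f → Ge P c (D' f)) (k : Fin ρ) (j : Fin s') :
    Ge P c (Hm N (α ∘ Sum.inl) (β ∘ Sum.inl) (β ∘ Sum.inr) (N.map D') k j) := by
  rw [Hm_der hv hm.1, Matrix.neg_apply]
  have h1 := ge_mul P (A := qf N (α ∘ Sum.inl) (β ∘ Sum.inl))
    (B := (vm N (α ∘ Sum.inl) (β ∘ Sum.inl) (β ∘ Sum.inr)).map D') (a := 0) (b := c)
    (fun i j => hm.ge_qf i j) (fun i j => hD' _ (hm.ge_vm _ i j)) k j
  rw [zero_add] at h1
  exact h1.neg

open scoped Classical in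
/-- A linear functional on the vector fields in terms of the chosen coordinates. -/
theorem exists_coord {x : Fin (n + 1) → K} {e1 : Fin (n + 1)} {α : Fin ρ ⊕ Fin r' ≃ R}
    {β : Fin ρ ⊕ Fin s' ≃ S} {b : Finset (Ix X n R S)}
    (σ : b ⊕ (Fin r' × Fin s') → Fin (n + 1))
    (hcard : Module.finrank K (Fu d F D E x) = b.card + r' * s')
    (hdet : (mt d F D E x e1 α β b σ).det ≠ 0) (φ : (Fin (n + 1) → K) →ₗ[K] K) :
    ∃ y : b ⊕ (Fin r' × Fin s') → K, ∀ z ∈ Fu d F D E x, ∑ j, y j * z (σ j) = φ z := by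
  obtain ⟨M, hM⟩ : ∃ M, M = mt d F D E x e1 α β b σ := ⟨_, rfl⟩
  rw [← hM] at hdet
  have hMu : IsUnit M.det := isUnit_iff_ne_zero.2 hdet
  obtain ⟨v, hv⟩ : ∃ v : b ⊕ (Fin r' × Fin s') → Fin (n + 1) → K,
    ∀ i, v i = rv d F D E x e1 α β (ri i) := ⟨_, fun _ => rfl⟩
  have hMv : ∀ i j, M i j = v i (σ j) := fun i j => by rw [hM, hv]; rfl
  obtain ⟨y, hy⟩ : ∃ y, y = M⁻¹.mulVec (fun i => φ (v i)) := ⟨_, rfl⟩
  have hMy : M.mulVec y = fun i => φ (v i) := by
    rw [hy, Matrix.mulVec_mulVec, Matrix.mul_nonsing_inv _ hMu, Matrix.one_mulVec]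
  refine ⟨y, ?_⟩
  have hli : LinearIndependent K v := by
    rw [Fintype.linearIndependent_iff]
    intro g hg
    have h1 : M.vecMul g = 0 := by
      funext j
      have h2 := congrFun hg (σ j)
      rw [Finset.sum_apply, Pi.zero_apply] at h2
      rw [Matrix.vecMul, dotProduct, Pi.zero_apply, ← h2]
      refine Finset.sum_congr rfl fun i _ => ?_
      rw [hMv]
      rfl
    have h2 : g = 0 := Matrix.eq_zero_of_vecMul_eq_zero hdet h1
    intro i
    rw [h2, Pi.zero_apply]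
  have hle : Submodule.span K (Set.range v) ≤ Fu d F D E x := by
    rw [Submodule.span_le]
    rintro _ ⟨i, rfl⟩
    rw [hv]
    exact rv_mem_Fu x _ _
  have hspan : Submodule.span K (Set.range v) = Fu d F D E x := by
    apply Submodule.eq_of_le_of_finrank_eq hle
    rw [finrank_span_eq_card hli, hcard, Fintype.card_sum, Fintype.card_coe, Fintype.card_prod,
      Fintype.card_fin, Fintype.card_fin]
  intro z hz
  rw [← hspan, Submodule.mem_span_range_iff_exists_fun] at hz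
  obtain ⟨c, rfl⟩ := hz
  rw [map_sum]
  have h2 : ∀ i, φ (v i) = ∑ j, v i (σ j) * y j := by
    intro i
    rw [← congrFun hMy i, Matrix.mulVec, dotProduct]
    exact Finset.sum_congr rfl fun j _ => by rw [hMv]
  simp only [map_smul, h2, Finset.sum_apply, Pi.smul_apply, smul_eq_mul, Finset.mul_sum]
  rw [Finset.sum_comm]
  refine Finset.sum_congr rfl fun i _ => Finset.sum_congr rfl fun j _ => by ring

omit [Fintype R] in
theorem LD.ge_eta_D (hdat : LD P d F D E e) {x : Fin (n + 1) → K}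
    (hv : Van (NN F x) (ρ + 1)) {α : Fin ρ ⊕ Fin r' ≃ R} {β : Fin ρ ⊕ Fin s' ≃ S}
    (hm : Mini P (NN F x) (α ∘ Sum.inl) (β ∘ Sum.inl)) (p : R × S) {I : Fin (n + 1) →₀ ℕ}
    (hI : I.degree = d) (q : Fin ρ × Fin s') :
    Ge P (-e) (Hm (NN F x) (α ∘ Sum.inl) (β ∘ Sum.inl) (β ∘ Sum.inr)
      ((NN F x).map (D p I)) q.1 q.2) :=
  ge_Hm_der hv hm _ (fun f hf => hdat.loss f hf p I hI) _ _

/-- The functionals at the rows. -/
theorem LD.ge_eta (hdat : LD P d F D E e) {x : Fin (n + 1) → K}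
    (hx : ∀ l, Ge P 0 (x l)) {e1 : Fin (n + 1)}
    (hv : Van (NN F x) (ρ + 1)) {α : Fin ρ ⊕ Fin r' ≃ R} {β : Fin ρ ⊕ Fin s' ≃ S}
    (hm : Mini P (NN F x) (α ∘ Sum.inl) (β ∘ Sum.inl)) (q : Fin ρ × Fin s')
    (i : Ix X n R S ⊕ (Fin r' × Fin s')) :
    Ge P (-(2 * e)) (Eta F x α β q (rv d F D E x e1 α β i)) := by
  have he := hdat.e_nonneg
  have hright : ∀ B : Matrix S S K, (∀ i j, Ge P 0 (B i j)) →
      Ge P 0 (Hm (NN F x) (α ∘ Sum.inl) (β ∘ Sum.inl) (β ∘ Sum.inr) (NN F x * B) q.1 q.2) := by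
    intro B hB
    rw [Hm_right]
    have h1 := ge_mul P (A := qf (NN F x) (α ∘ Sum.inl) (β ∘ Sum.inl))
      (B := B * vm (NN F x) (α ∘ Sum.inl) (β ∘ Sum.inl) (β ∘ Sum.inr)) (a := 0) (b := 0)
      (fun i j => hm.ge_qf i j) (fun i j => by
        have := ge_mul P (A := B) (B := vm (NN F x) (α ∘ Sum.inl) (β ∘ Sum.inl) (β ∘ Sum.inr))
          (a := 0) (b := 0) hB (fun i j => hm.ge_vm _ i j) i j
        rwa [zero_add] at this) q.1 q.2
    rwa [zero_add] at h1
  rw [Eta_apply]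
  rcases i with (_ | ξ | t | p | p) | p
  · simp only [rv, gen]
    rw [dN_self hdat.hom, Hm_smul, Matrix.smul_apply]
    have h1 := hright 1 (fun i j => ge_one_apply P i j)
    rw [Matrix.mul_one] at h1
    exact ((Ge.natCast (P := P) d).mul h1).mono (by omega)
  · simp only [rv, gen]
    rw [dN_ev (hdat.vert ξ)]
    exact (ge_Hm_der hv hm _ (fun f hf => hdat.lossE f hf ξ) _ _).mono (by omega)
  · simp only [rv, gen]
    by_cases ht : t.2.1.degree + 1 = d
    · rw [dN_tv hdat.hom hdat.dual x t ht, Hm_sub, Hm_smul, Hm_smul, Matrix.sub_apply,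
        Matrix.smul_apply, Matrix.smul_apply]
      refine Ge.mono (by omega : -(2 * e) ≤ 0 + -e) (Ge.sub ?_ ?_)
      · exact (hx _).mul (hdat.ge_eta_D hv hm _ (by rw [map_add, Finsupp.degree_single, ht]) q)
      · exact (hx _).mul (hdat.ge_eta_D hv hm _ (by rw [map_add, Finsupp.degree_single, ht]) q)
    · rw [dN_tv0 x t ht]
      have h1 : Hm (NN F x) (α ∘ Sum.inl) (β ∘ Sum.inl) (β ∘ Sum.inr)
          (0 : Matrix R S K) q.1 q.2 = 0 := by
        have := Hm_smul (N := NN F x) (f := α ∘ Sum.inl) (g := β ∘ Sum.inl) (h := β ∘ Sum.inr)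
          (0 : K) (0 : Matrix R S K)
        rw [zero_smul, zero_smul] at this
        rw [this]
        rfl
      rw [h1]
      exact Ge.zero
  · simp only [rv, gen]
    rw [dN_Rop hdat.hom hdat.dual, Hm_sub, Hm_left hv hm.1, sub_zero]
    exact ge_Hm_der hv hm _ (fun f hf => hdat.ge_Rop hf _ _) _ _
  · simp only [rv, gen]
    rw [dN_Cop hdat.hom hdat.dual, Hm_sub, Matrix.sub_apply]
    refine Ge.sub (ge_Hm_der hv hm _ (fun f hf => hdat.ge_Cop hf _ _) _ _) ?_
    refine (hright _ fun i j => ?_).mono (by omega)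
    rw [Matrix.single_apply]
    split_ifs
    · exact Ge.one
    · exact Ge.zero
  · simp only [rv]
    rw [dN_Ev hdat.hom hdat.dual x _ _ (Finsupp.degree_single _ _), Hm_sub, Hm_smul,
      Matrix.sub_apply, Matrix.smul_apply, Hm_single_inr, smul_zero, sub_zero]
    exact (hdat.ge_eta_D hv hm _ (Finsupp.degree_single _ _) q).mono (by omega)

open scoped Classical in
/-- The order of the determinant at a scaled point. -/
theorem LD.ord_det (hdat : LD P d F D E e) {x : Fin (n + 1) → K}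
    (hx : ∀ l, Ge P 0 (x l)) {e1 : Fin (n + 1)} (he1 : x e1 = 1)
    (hv : Van (NN F x) (ρ + 1)) {α : Fin ρ ⊕ Fin r' ≃ R} {β : Fin ρ ⊕ Fin s' ≃ S}
    (hm : Mini P (NN F x) (α ∘ Sum.inl) (β ∘ Sum.inl)) {b : Finset (Ix X n R S)}
    (σ : b ⊕ (Fin r' × Fin s') → Fin (n + 1))
    (hcard : Module.finrank K (Fu d F D E x) = b.card + r' * s')
    (hdet : (mt d F D E x e1 α β b σ).det ≠ 0) :
    s' * P.ord (mna (NN F x) α β) - (n + 1 + ρ * s') * (2 * e) ≤
      P.ord (mt d F D E x e1 α β b σ).det := by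
  have he := hdat.e_nonneg
  have hmn : mna (NN F x) α β ≠ 0 := hm.1
  choose y hy using fun q : Fin ρ × Fin s' => exists_coord σ hcard hdet (Eta F x α β q)
  obtain ⟨N1, hN1⟩ : ∃ N1, N1 = (NN F x).submatrix (α ∘ Sum.inl) (β ∘ Sum.inl) := ⟨_, rfl⟩
  have hN1d : N1.det = mna (NN F x) α β := by rw [hN1]; rfl
  obtain ⟨A, hA⟩ : ∃ A : Matrix (Fin ρ × Fin s') (Fin ρ × Fin s') K, A =
    Matrix.kroneckerMap (· * ·) N1⁻¹ (1 : Matrix (Fin s') (Fin s') K) := ⟨_, rfl⟩
  have hAd : A.det = ((mna (NN F x) α β)⁻¹) ^ s' := by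
    have h1 := Matrix.det_kronecker N1⁻¹ (1 : Matrix (Fin s') (Fin s') K)
    rw [Matrix.det_one, one_pow, mul_one, Fintype.card_fin, Matrix.det_nonsing_inv,
      Ring.inverse_eq_inv', hN1d] at h1
    rw [hA]
    exact h1
  have h1 := det_lattice P (mt d F D E x e1 α β b σ) (Matrix.of y)
    (Matrix.of fun (q : Fin ρ × Fin s') j =>
      Ev D x (α (Sum.inl q.1), β (Sum.inr q.2)) (Finsupp.single e1 d) (σ j)) A (2 * e)
    (fun i j => hdat.ge_rv hx e1 α β _ _)
    (fun q j => (hdat.loss _ (hx _) _ _ (Finsupp.degree_single _ _)).mono (by omega))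
    (fun q i => ?_) (fun q q' => ?_) ?_ hdet
  · rw [hAd, P.ord_pow, P.ord_inv, Fintype.card_sum, Fintype.card_coe,
      Fintype.card_prod, Fintype.card_prod, Fintype.card_fin, Fintype.card_fin,
      Fintype.card_fin] at h1
    have h2 : b.card + r' * s' ≤ n + 1 := by
      rw [← hcard]
      have := Submodule.finrank_le (Fu d F D E x)
      rwa [Module.finrank_fin_fun] at this
    have h3 : ((b.card + r' * s' : ℕ) : ℤ) * (2 * e) ≤ (n + 1) * (2 * e) :=
      mul_le_mul_of_nonneg_right (by exact_mod_cast h2) (by omega)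
    push_cast at h1 h3
    linarith
  · have h2 : (Matrix.of y * (mt d F D E x e1 α β b σ).transpose) q i =
        ∑ j, y q j * rv d F D E x e1 α β (ri i) (σ j) := rfl
    rw [h2, hy q _ (rv_mem_Fu x _ _)]
    exact hdat.ge_eta hx hv hm q _
  · have h2 : (Matrix.of y * (Matrix.of fun (q : Fin ρ × Fin s') j =>
        Ev D x (α (Sum.inl q.1), β (Sum.inr q.2)) (Finsupp.single e1 d) (σ j)).transpose) q q' =
        ∑ j, y q j * Ev D x (α (Sum.inl q'.1), β (Sum.inr q'.2)) (Finsupp.single e1 d) (σ j) := rfl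
    rw [h2, hy q _ (Ev_mem_Fu x _ (Finsupp.degree_single _ _)), Eta_apply,
      dN_Ev hdat.hom hdat.dual x _ _ (Finsupp.degree_single _ _), Hm_sub, Hm_smul,
      Matrix.sub_apply, Matrix.smul_apply, Hm_single_inl, mon_single, he1, one_pow, one_smul]
    have h3 : A q q' = N1⁻¹ q.1 q'.1 * (1 : Matrix (Fin s') (Fin s') K) q.2 q'.2 := by
      rw [hA]; rfl
    rw [h3, ← hN1, add_sub_cancel]
    exact (hdat.ge_eta_D hv hm _ (Finsupp.degree_single _ _) q).mono (by omega)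
  · rw [hAd]
    exact pow_ne_zero _ (inv_ne_zero hmn)

end Pool.Agent.T6.H19.DV
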