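import Pool.Agent.T6.H19.DV.Det

/-!
Matrices whose minors of some size vanish: factorization through a nonsingular block.
-/

set_option autoImplicit false

open Matrix

namespace Pool.Agent.T6.H19.DV

section minors

variable {L : Type} [Field L] {R S : Type}

/-- The minor of `N` with the rows `f` and the columns `g`. -/
noncomputable def mnr (N : Matrix R S L) {ρ : ℕ} (f : Fin ρ → R) (g : Fin ρ → S) : L :=
  (N.submatrix f g).det

/-- All minors of size `t` vanish. -/
def Van (N : Matrix R S L) (t : ℕ) : Prop := ∀ (f : Fin t → R) (g : Fin t → S), mnr N f g = 0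

theorem exists_rank {N : Matrix R S L} {t : ℕ} (h : Van N t) :
    ∃ ρ, ρ < t ∧ Van N (ρ + 1) ∧ ∃ (f : Fin ρ → R) (g : Fin ρ → S), mnr N f g ≠ 0 := by
  classical
  have hex : ∃ t, Van N t := ⟨t, h⟩
  have h1 := Nat.find_spec hex
  have h2 := fun m => Nat.find_min (m := m) hex
  have h3 := Nat.find_min' hex h
  obtain ⟨u, hu⟩ : ∃ u, u = Nat.find hex := ⟨_, rfl⟩
  rw [← hu] at h1 h2 h3
  rcases u with _ | ρ
  · exfalso
    have h4 := h1 Fin.elim0 Fin.elim0
    unfold mnr at h4
    rw [Matrix.det_fin_zero] at h4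
    exact one_ne_zero h4
  · refine ⟨ρ, by omega, h1, ?_⟩
    have h4 := h2 ρ (by omega)
    unfold Van at h4
    push Not at h4
    exact h4

theorem mnr_inj_row {N : Matrix R S L} {ρ : ℕ} {f : Fin ρ → R} {g : Fin ρ → S}
    (h : mnr N f g ≠ 0) : Function.Injective f := by
  intro i j hij
  by_contra hne
  apply h
  refine Matrix.det_zero_of_row_eq hne ?_
  funext l
  simp only [submatrix_apply, hij]

theorem mnr_inj_col {N : Matrix R S L} {ρ : ℕ} {f : Fin ρ → R} {g : Fin ρ → S}
    (h : mnr N f g ≠ 0) : Function.Injective g := by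
  intro i j hij
  by_contra hne
  apply h
  refine Matrix.det_zero_of_column_eq hne ?_
  intro l
  simp only [submatrix_apply, hij]

theorem exists_ext [Fintype R] {ρ r' : ℕ} {f : Fin ρ → R} (hf : Function.Injective f)
    (hcard : Fintype.card R = ρ + r') : ∃ α : Fin ρ ⊕ Fin r' ≃ R, ∀ i, α (Sum.inl i) = f i := by
  classical
  have h1 : Fintype.card (Set.range f) = ρ := by
    rw [Set.card_range_of_injective hf, Fintype.card_fin]
  have h2 : Fintype.card ((Set.range f)ᶜ : Set R) = r' := by
    rw [Fintype.card_compl_set, h1, hcard]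
    omega
  obtain ⟨e2⟩ : Nonempty (Fin r' ≃ ((Set.range f)ᶜ : Set R)) :=
    ⟨(Fintype.equivFinOfCardEq h2).symm⟩
  refine ⟨(Equiv.sumCongr (Equiv.ofInjective f hf) e2).trans (Equiv.Set.sumCompl (Set.range f)),
    fun i => ?_⟩
  simp

/-- The factorization. -/
theorem fact {N : Matrix R S L} {ρ : ℕ} (h : Van N (ρ + 1)) {f : Fin ρ → R} {g : Fin ρ → S}
    (hfg : mnr N f g ≠ 0) :
    N = N.submatrix id g * (N.submatrix f g)⁻¹ * N.submatrix f id := by
  ext a b
  have hu : IsUnit (N.submatrix f g).det := isUnit_iff_ne_zero.2 hfg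
  let _ := (N.submatrix f g).invertibleOfIsUnitDet hu
  obtain ⟨f', hf'⟩ : ∃ f' : Fin ρ ⊕ Fin 1 → R, f' = Sum.elim f fun _ => a := ⟨_, rfl⟩
  obtain ⟨g', hg'⟩ : ∃ g' : Fin ρ ⊕ Fin 1 → S, g' = Sum.elim g fun _ => b := ⟨_, rfl⟩
  have h1 : (N.submatrix f' g').det = 0 := by
    have h2 := h (f' ∘ finSumFinEquiv.symm) (g' ∘ finSumFinEquiv.symm)
    unfold mnr at h2
    rw [← Matrix.det_submatrix_equiv_self finSumFinEquiv, Matrix.submatrix_submatrix] at h2
    rw [← h2]
    congr 1
    ext i j
    simp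
  have h3 : N.submatrix f' g' = fromBlocks (N.submatrix f g) (N.submatrix f fun _ => b)
      (N.submatrix (fun _ => a) g) (N.submatrix (fun _ => a) fun _ => b) := by
    rw [hf', hg']
    ext (i | i) (j | j) <;> rfl
  rw [h3, det_fromBlocks₁₁] at h1
  have h4 := (mul_eq_zero.1 h1).resolve_left hfg
  rw [Matrix.det_fin_one, Matrix.sub_apply, sub_eq_zero, invOf_eq_nonsing_inv] at h4
  exact h4

end minors

section

variable {L : Type} [Field L] {R S : Type} [Fintype R] [Fintype S] [DecidableEq R] [DecidableEq S]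

variable (N : Matrix R S L) {ρ r' s' : ℕ} (f : Fin ρ → R) (g : Fin ρ → S)

/-- The coefficients of the rows of the matrix. -/
noncomputable def pf : Matrix R (Fin ρ) L := N.submatrix id g * (N.submatrix f g)⁻¹

/-- The coefficients of the columns of the matrix. -/
noncomputable def qf : Matrix (Fin ρ) S L := (N.submatrix f g)⁻¹ * N.submatrix f id

/-- The relations between the columns. -/
noncomputable def vm (h : Fin s' → S) : Matrix S (Fin s') L :=
  (1 : Matrix S S L).submatrix id h - (1 : Matrix S S L).submatrix id g * (qf N f g).submatrix id h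

/-- The relations between the rows. -/
noncomputable def wm (h : Fin r' → R) : Matrix (Fin r') R L :=
  (1 : Matrix R R L).submatrix h id - (pf N f g).submatrix h id * (1 : Matrix R R L).submatrix f id

variable {N f g}

omit [Fintype S] [DecidableEq S] [Fintype R] [DecidableEq R] in
theorem pf_mul (hfg : mnr N f g ≠ 0) : pf N f g * N.submatrix f g = N.submatrix id g := by
  unfold pf
  rw [Matrix.mul_assoc, Matrix.nonsing_inv_mul _ (isUnit_iff_ne_zero.2 hfg), Matrix.mul_one]

omit [Fintype S] [DecidableEq S] [Fintype R] [DecidableEq R] in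
theorem mul_qf (hfg : mnr N f g ≠ 0) : N.submatrix f g * qf N f g = N.submatrix f id := by
  unfold qf
  rw [← Matrix.mul_assoc, Matrix.mul_nonsing_inv _ (isUnit_iff_ne_zero.2 hfg), Matrix.one_mul]

omit [Fintype S] [DecidableEq S] [Fintype R] [DecidableEq R] in
theorem pf_sub (hfg : mnr N f g ≠ 0) : (pf N f g).submatrix f id = 1 := by
  have h1 : (pf N f g).submatrix f id = N.submatrix f g * (N.submatrix f g)⁻¹ := by
    ext i j
    rfl
  rw [h1, Matrix.mul_nonsing_inv _ (isUnit_iff_ne_zero.2 hfg)]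

omit [Fintype S] [DecidableEq S] [Fintype R] [DecidableEq R] in
theorem qf_sub (hfg : mnr N f g ≠ 0) : (qf N f g).submatrix id g = 1 := by
  have h1 : (qf N f g).submatrix id g = (N.submatrix f g)⁻¹ * N.submatrix f g := by
    ext i j
    rfl
  rw [h1, Matrix.nonsing_inv_mul _ (isUnit_iff_ne_zero.2 hfg)]

omit [Fintype S] [DecidableEq S] [Fintype R] [DecidableEq R] in
theorem fact' (hv : Van N (ρ + 1)) (hfg : mnr N f g ≠ 0) :
    N = pf N f g * N.submatrix f g * qf N f g := by
  rw [pf_mul hfg]
  unfold qf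
  rw [← Matrix.mul_assoc]
  exact fact hv hfg

omit [Fintype R] [DecidableEq R] in
theorem mul_vm (hv : Van N (ρ + 1)) (hfg : mnr N f g ≠ 0) (h : Fin s' → S) :
    N * vm N f g h = 0 := by
  unfold vm
  rw [Matrix.mul_sub, ← Matrix.mul_assoc]
  have h1 : ∀ {κ : Type} (h : κ → S), N * (1 : Matrix S S L).submatrix id h =
      N.submatrix id h := by
    intro κ h
    ext i j
    simp [Matrix.mul_apply, Matrix.one_apply]
  rw [h1, h1, ← pf_mul hfg]
  have h2 : N.submatrix id h = pf N f g * N.submatrix f g * (qf N f g).submatrix id h := by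
    conv_lhs => rw [fact' hv hfg]
    ext i j
    rfl
  rw [h2, sub_self]

omit [Fintype S] [DecidableEq S] in
theorem wm_mul (hv : Van N (ρ + 1)) (hfg : mnr N f g ≠ 0) (h : Fin r' → R) :
    wm N f g h * N = 0 := by
  unfold wm
  rw [Matrix.sub_mul, Matrix.mul_assoc]
  have h1 : ∀ {κ : Type} (h : κ → R), (1 : Matrix R R L).submatrix h id * N =
      N.submatrix h id := by
    intro κ h
    ext i j
    simp [Matrix.mul_apply, Matrix.one_apply]
  rw [h1, h1, ← mul_qf hfg]
  have h2 : N.submatrix h id = (pf N f g).submatrix h id * (N.submatrix f g * qf N f g) := by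
    conv_lhs => rw [fact' hv hfg, Matrix.mul_assoc]
    ext i j
    rfl
  rw [h2, sub_self]

omit [Fintype R] [DecidableEq R] [Fintype S] in
theorem vm_inl (hg : Function.Injective g) {h : Fin s' → S} (hgh : ∀ i j, g i ≠ h j)
    (k : Fin ρ) (j : Fin s') : vm N f g h (g k) j = -(qf N f g k (h j)) := by
  unfold vm
  rw [Matrix.sub_apply, Matrix.mul_apply, Finset.sum_eq_single k]
  · simp [Matrix.one_apply, hgh]
  · intro l _ hl
    simp [Matrix.one_apply, hg.ne hl.symm]
  · intro hh; exact absurd (Finset.mem_univ _) hh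

omit [Fintype R] [DecidableEq R] [Fintype S] in
theorem vm_inr {h : Fin s' → S} (hh : Function.Injective h) (hgh : ∀ i j, g i ≠ h j)
    (j j' : Fin s') : vm N f g h (h j) j' = if j = j' then 1 else 0 := by
  unfold vm
  rw [Matrix.sub_apply, Matrix.mul_apply, Finset.sum_eq_zero]
  · simp [Matrix.one_apply, hh.eq_iff]
  · intro k _
    simp [Matrix.one_apply, (hgh k j).symm]

omit [Fintype S] [DecidableEq S] [Fintype R] in
theorem wm_inl (hf : Function.Injective f) {h : Fin r' → R} (hfh : ∀ i j, f i ≠ h j)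
    (k : Fin ρ) (i : Fin r') : wm N f g h i (f k) = -(pf N f g (h i) k) := by
  unfold wm
  rw [Matrix.sub_apply, Matrix.mul_apply, Finset.sum_eq_single k]
  · simp [Matrix.one_apply, (hfh _ _).symm]
  · intro l _ hl
    simp [Matrix.one_apply, hf.ne hl]
  · intro hh; exact absurd (Finset.mem_univ _) hh

omit [Fintype S] [DecidableEq S] [Fintype R] in
theorem wm_inr {h : Fin r' → R} (hh : Function.Injective h) (hfh : ∀ i j, f i ≠ h j)
    (i i' : Fin r') : wm N f g h i (h i') = if i = i' then 1 else 0 := by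
  unfold wm
  rw [Matrix.sub_apply, Matrix.mul_apply, Finset.sum_eq_zero]
  · simp [Matrix.one_apply, hh.eq_iff]
  · intro k _
    simp [Matrix.one_apply, hfh k i']

end

end Pool.Agent.T6.H19.DV
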