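import Pool.Agent.T6.H19.DV.Fact

/-!
Matrices whose minors of some size vanish: integrality, derivations, complementary minors.
-/

set_option autoImplicit false

open Matrix FF Pool.Agent.W603.LV

namespace Pool.Agent.T6.H19.DV

section

variable {L : Type} [Field L] {R S : Type}
variable {N : Matrix R S L} {ρ r' s' : ℕ} {f : Fin ρ → R} {g : Fin ρ → S}

theorem qf_eq (hfg : mnr N f g ≠ 0) (k : Fin ρ) (b : S) :
    qf N f g k b = mnr N f (Function.update g k b) / mnr N f g := by
  have h1 := det_smul_inv_mulVec_eq_cramer (N.submatrix f g) (fun i => N (f i) b)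
    (isUnit_iff_ne_zero.2 hfg)
  have h2 := congrFun h1 k
  rw [Matrix.cramer_apply, Pi.smul_apply, smul_eq_mul] at h2
  have h3 : (N.submatrix f g).updateCol k (fun i => N (f i) b) =
      N.submatrix f (Function.update g k b) := by
    ext i j
    rw [Matrix.updateCol_apply, submatrix_apply]
    by_cases hj : j = k
    · rw [if_pos hj, hj, submatrix_apply, Function.update_self]
    · rw [if_neg hj, submatrix_apply, Function.update_of_ne hj]
  rw [h3] at h2
  unfold mnr at hfg ⊢
  rw [eq_div_iff hfg, mul_comm, ← h2]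
  rfl

theorem pf_eq (hfg : mnr N f g ≠ 0) (k : Fin ρ) (a : R) :
    pf N f g a k = mnr N (Function.update f k a) g / mnr N f g := by
  have h0 : ∀ (f : Fin ρ → R) (g : Fin ρ → S), mnr Nᵀ g f = mnr N f g := by
    intro f g
    unfold mnr
    rw [← det_transpose (N.submatrix f g)]
    rfl
  have h1 := qf_eq (N := Nᵀ) (f := g) (g := f) (by rw [h0]; exact hfg) k a
  rw [h0, h0] at h1
  rw [← h1]
  unfold pf qf
  have h2 : (N.submatrix id g * (N.submatrix f g)⁻¹) =
      ((Nᵀ.submatrix g f)⁻¹ * Nᵀ.submatrix g id)ᵀ := by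
    rw [transpose_mul, transpose_nonsing_inv]
    rfl
  rw [h2]
  rfl

end

section

variable {k L : Type} [Field k] [Field L] [Algebra k L] {R S T : Type}

theorem ge_mul (P : Place k L) [Fintype T] {A : Matrix R T L} {B : Matrix T S L} {a b : ℤ}
    (hA : ∀ i j, Ge P a (A i j)) (hB : ∀ i j, Ge P b (B i j)) (i : R) (j : S) :
    Ge P (a + b) ((A * B) i j) := by
  rw [Matrix.mul_apply]
  exact Ge.sum _ _ fun l _ => (hA i l).mul (hB l j)

variable {N : Matrix R S L} {ρ r' s' : ℕ} {f : Fin ρ → R} {g : Fin ρ → S}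

/-- The minor is minimal at the place. -/
def Mini (P : Place k L) (N : Matrix R S L) {ρ : ℕ} (f : Fin ρ → R) (g : Fin ρ → S) : Prop :=
  mnr N f g ≠ 0 ∧ ∀ (f' : Fin ρ → R) (g' : Fin ρ → S), mnr N f' g' ≠ 0 →
    P.ord (mnr N f g) ≤ P.ord (mnr N f' g')

theorem exists_mini (P : Place k L) [Finite R] [Finite S]
    (h : ∃ (f : Fin ρ → R) (g : Fin ρ → S), mnr N f g ≠ 0) :
    ∃ (f : Fin ρ → R) (g : Fin ρ → S), Mini P N f g := by
  classical
  have := Fintype.ofFinite R
  have := Fintype.ofFinite S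
  obtain ⟨f0, g0, h0⟩ := h
  obtain ⟨p, hp, hpm⟩ := Finset.exists_min_image
    (Finset.univ.filter fun p : (Fin ρ → R) × (Fin ρ → S) => mnr N p.1 p.2 ≠ 0)
    (fun p => P.ord (mnr N p.1 p.2)) ⟨(f0, g0), Finset.mem_filter.2 ⟨Finset.mem_univ _, h0⟩⟩
  exact ⟨p.1, p.2, (Finset.mem_filter.1 hp).2, fun f' g' h' =>
    hpm (f', g') (Finset.mem_filter.2 ⟨Finset.mem_univ _, h'⟩)⟩

theorem Mini.ratio {P : Place k L} (h : Mini P N f g) (f' : Fin ρ → R) (g' : Fin ρ → S) :
    Ge P 0 (mnr N f' g' / mnr N f g) := by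
  by_cases h0 : mnr N f' g' = 0
  · rw [h0, zero_div]
    exact Ge.zero
  · right
    rw [P.ord_div h0 h.1]
    have := h.2 f' g' h0
    omega

theorem Mini.ge_qf {P : Place k L} (h : Mini P N f g) (k : Fin ρ) (b : S) :
    Ge P 0 (qf N f g k b) := by
  have h1 := h.1
  rw [qf_eq h1]
  exact h.ratio _ _

theorem Mini.ge_pf {P : Place k L} (h : Mini P N f g) (a : R) (k : Fin ρ) :
    Ge P 0 (pf N f g a k) := by
  have h1 := h.1
  rw [pf_eq h1]
  exact h.ratio _ _

theorem ge_one_apply (P : Place k L) [DecidableEq T] (i j : T) : Ge P 0 ((1 : Matrix T T L) i j) := by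
  rw [Matrix.one_apply]
  split_ifs
  · exact Ge.one
  · exact Ge.zero

variable [DecidableEq R] [DecidableEq S]

theorem Mini.ge_vm {P : Place k L} (h : Mini P N f g) (h' : Fin s' → S) (i : S) (j : Fin s') :
    Ge P 0 (vm N f g h' i j) := by
  unfold vm
  rw [Matrix.sub_apply]
  refine (ge_one_apply P _ _).sub ?_
  have := ge_mul P (A := (1 : Matrix S S L).submatrix id g) (B := (qf N f g).submatrix id h')
    (a := 0) (b := 0) (fun _ _ => ge_one_apply P _ _) (fun _ _ => h.ge_qf _ _) i j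
  rwa [add_zero] at this

end

section der

variable {L : Type} [Field L] {R S T : Type}

theorem map_mul_der (D : Derivation ℤ L L) [Fintype T] (A : Matrix R T L) (B : Matrix T S L) :
    (A * B).map D = A.map D * B + A * B.map D := by
  ext i j
  rw [Matrix.map_apply, Matrix.mul_apply, map_sum, Matrix.add_apply, Matrix.mul_apply,
    Matrix.mul_apply, ← Finset.sum_add_distrib]
  refine Finset.sum_congr rfl fun l _ => ?_
  rw [D.leibniz, Matrix.map_apply, Matrix.map_apply, smul_eq_mul, smul_eq_mul]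
  ring

variable [Fintype S] [DecidableEq S]

/-- The values of the functionals in terms of the differential of the matrix. -/
noncomputable def Hm (N : Matrix R S L) {ρ s' : ℕ} (f : Fin ρ → R) (g : Fin ρ → S)
    (h : Fin s' → S) (C : Matrix R S L) : Matrix (Fin ρ) (Fin s') L :=
  (N.submatrix f g)⁻¹ * (C.submatrix f id * vm N f g h)

variable {N : Matrix R S L} {ρ s' : ℕ} {f : Fin ρ → R} {g : Fin ρ → S} {h : Fin s' → S}

theorem Hm_add (C C' : Matrix R S L) : Hm N f g h (C + C') = Hm N f g h C + Hm N f g h C' := by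
  unfold Hm
  rw [← Matrix.mul_add, ← Matrix.add_mul]
  rfl

theorem Hm_sub (C C' : Matrix R S L) : Hm N f g h (C - C') = Hm N f g h C - Hm N f g h C' := by
  unfold Hm
  rw [← Matrix.mul_sub, ← Matrix.sub_mul]
  rfl

theorem Hm_smul (c : L) (C : Matrix R S L) : Hm N f g h (c • C) = c • Hm N f g h C := by
  unfold Hm
  rw [← Matrix.mul_smul, ← Matrix.smul_mul]
  rfl

theorem Hm_der (hv : Van N (ρ + 1)) (hfg : mnr N f g ≠ 0) (D : Derivation ℤ L L) :
    Hm N f g h (N.map D) = -(qf N f g * (vm N f g h).map D) := by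
  have h1 := map_mul_der D N (vm N f g h)
  rw [mul_vm hv hfg] at h1
  have h2 : (0 : Matrix R (Fin s') L).map D = 0 := by
    ext i j
    simp
  rw [h2] at h1
  have h3 : N.map D * vm N f g h = -(N * (vm N f g h).map D) := by
    rw [eq_neg_iff_add_eq_zero]
    exact h1.symm
  have h4 : (N.map D).submatrix f id * vm N f g h =
      -(N.submatrix f id * (vm N f g h).map D) := by
    have h5 : (N.map D).submatrix f id * vm N f g h =
        (N.map D * vm N f g h).submatrix f id := by
      ext i j; rfl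
    rw [h5, h3]
    ext i j; rfl
  unfold Hm
  rw [h4, Matrix.mul_neg, ← Matrix.mul_assoc]
  rfl

theorem Hm_left [Fintype R] (hv : Van N (ρ + 1)) (hfg : mnr N f g ≠ 0) (B : Matrix R R L) :
    Hm N f g h (B * N) = 0 := by
  unfold Hm
  have h1 : (B * N).submatrix f id * vm N f g h = B.submatrix f id * (N * vm N f g h) := by
    rw [← Matrix.mul_assoc]
    rfl
  rw [h1, mul_vm hv hfg, Matrix.mul_zero, Matrix.mul_zero]

theorem Hm_right (B : Matrix S S L) : Hm N f g h (N * B) = qf N f g * (B * vm N f g h) := by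
  unfold Hm qf
  rw [← Matrix.mul_assoc, ← Matrix.mul_assoc]
  congr 1
  rw [Matrix.mul_assoc]
  rfl

end der

section compl

variable {L : Type} [Field L] {R : Type} [Fintype R] [DecidableEq R]

/-- Complementary minors. -/
theorem compl_det {ρ r' : ℕ} (α0 α1 : Fin ρ ⊕ Fin r' ≃ R) (p : Matrix R (Fin ρ) L)
    (w : Matrix (Fin r') R L) (hp : p.submatrix (α1 ∘ Sum.inl) id = 1)
    (hw : w.submatrix id (α1 ∘ Sum.inr) = 1) (hwp : w * p = 0) :
    ∃ ε : L, (ε = 1 ∨ ε = -1) ∧ (w.submatrix id (α0 ∘ Sum.inr)).det =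
      ε * (p.submatrix (α0 ∘ Sum.inl) id).det := by
  obtain ⟨E, hE⟩ : ∃ E : Matrix R (Fin r') L, E = (1 : Matrix R R L).submatrix id (α1 ∘ Sum.inr) :=
    ⟨_, rfl⟩
  obtain ⟨Z, hZ⟩ : ∃ Z : Matrix (Fin ρ ⊕ Fin r') R L,
    Z = fromRows ((1 : Matrix R R L).submatrix (α0 ∘ Sum.inl) id) w := ⟨_, rfl⟩
  have hwE : w * E = 1 := by
    rw [← hw, hE]
    ext i j
    simp [Matrix.mul_apply, Matrix.one_apply]
  have h1 : Z * fromCols p E = fromBlocks (p.submatrix (α0 ∘ Sum.inl) id)
      (E.submatrix (α0 ∘ Sum.inl) id) 0 1 := by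
    rw [hZ, fromRows_mul_fromCols, hwp, hwE]
    congr 1
    · ext i j
      simp [Matrix.mul_apply, Matrix.one_apply]
    · ext i j
      simp [Matrix.mul_apply, Matrix.one_apply]
  have h2 : (Z * fromCols p E).det = (p.submatrix (α0 ∘ Sum.inl) id).det := by
    rw [h1, det_fromBlocks_zero₂₁, det_one, mul_one]
  have h3 : (fromCols p E).submatrix α1 id = fromBlocks 1 0 (p.submatrix (α1 ∘ Sum.inr) id) 1 := by
    ext (i | i) (j | j)
    · exact congrFun (congrFun hp i) j
    · rw [hE]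
      simp [Matrix.one_apply]
    · rfl
    · rw [hE]
      simp [Matrix.one_apply]
  have h4 : ((fromCols p E).submatrix α1 id).det = 1 := by
    rw [h3, det_fromBlocks_zero₁₂, det_one, det_one, mul_one]
  have h5 : Z * fromCols p E = Z.submatrix id α1 * (fromCols p E).submatrix α1 id := by
    rw [Matrix.submatrix_mul_equiv Z (fromCols p E) id α1 id]
    rfl
  have h6 : (Z.submatrix id α1).det = (p.submatrix (α0 ∘ Sum.inl) id).det := by
    rw [← h2, h5, det_mul, h4, mul_one]
  have h7 : Z.submatrix id α0 = fromBlocks 1 0 (w.submatrix id (α0 ∘ Sum.inl))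
      (w.submatrix id (α0 ∘ Sum.inr)) := by
    rw [hZ]
    ext (i | i) (j | j)
    · simp [Matrix.one_apply]
    · simp [Matrix.one_apply]
    · rfl
    · rfl
  have h8 : (Z.submatrix id α0).det = (w.submatrix id (α0 ∘ Sum.inr)).det := by
    rw [h7, det_fromBlocks_zero₁₂, det_one, one_mul]
  obtain ⟨π, hπ⟩ : ∃ π : Equiv.Perm (Fin ρ ⊕ Fin r'), π = α0.trans α1.symm := ⟨_, rfl⟩
  have h9 : Z.submatrix id α0 = (Z.submatrix id α1).submatrix id π := by
    ext i j
    simp [hπ]
  rw [← h8, h9, det_permute', h6]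
  refine ⟨((Equiv.Perm.sign π : ℤˣ) : ℤ), ?_, by push_cast; rfl⟩
  rcases Int.units_eq_one_or (Equiv.Perm.sign π) with h | h
  · left
    rw [h]
    simp
  · right
    rw [h]
    simp

end compl

end Pool.Agent.T6.H19.DV
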