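import Pool.Agent.T6.H19.DV.Est

/-!
The height inequality for generic determinantal varieties.
-/

set_option autoImplicit false

open MvPolynomial Pool.Agent.TH145.GH FF Pool.Agent.W603.LV Pool.Agent.W603.PV
open Pool.Agent.TH145.GC (Ev Ti tv wv Dual ge_det exists_minor)

namespace Pool.Agent.T6.H19.DV

variable {k K : Type} [Field k] [Field K] [Algebra k K] {n : ℕ} {R S X : Type} [Fintype R]
  [Fintype S] [DecidableEq R] [DecidableEq S] {ρ r' s' d : ℕ}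
  {F : R × S → MvPolynomial (Fin (n + 1)) K}
  {D : R × S → (Fin (n + 1) →₀ ℕ) → Derivation ℤ K K} {E : X → Derivation ℤ K K}
  {e : Place k K → ℤ}

open scoped Classical in
/-- The local inequality, from an estimate at the scaled points. -/
theorem local_gen (P : Place k K) (hF : ∀ p, (F p).IsHomogeneous d) {x : Fin (n + 1) → K}
    {e0 : Fin (n + 1)} (he0 : x e0 ≠ 0) (hv : Van (NN F x) (ρ + 1))
    {α : Fin ρ ⊕ Fin r' ≃ R} {β : Fin ρ ⊕ Fin s' ≃ S} (hm : mna (NN F x) α β ≠ 0)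
    (hrs : s' ≤ r') {b : Finset (Ix X n R S)} (hb : none ∈ b)
    (σ : b ⊕ (Fin r' × Fin s') → Fin (n + 1))
    (hspan : Sp d F D E x ≤ Submodule.span K (gen d F D E x '' b))
    (hcard : Module.finrank K (Fu d F D E x) = b.card + r' * s')
    (hdet : (mt d F D E x e0 α β b σ).det ≠ 0) {B : ℤ}
    (H : ∀ (x' : Fin (n + 1) → K) (e1 : Fin (n + 1)) (α1 : Fin ρ ⊕ Fin r' ≃ R)
      (β1 : Fin ρ ⊕ Fin s' ≃ S), (∀ l, Ge P 0 (x' l)) → x' e1 = 1 → Van (NN F x') (ρ + 1) →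
      Mini P (NN F x') (α1 ∘ Sum.inl) (β1 ∘ Sum.inl) →
      Module.finrank K (Fu d F D E x') = b.card + r' * s' →
      (mt d F D E x' e1 α1 β1 b σ).det ≠ 0 →
      s' * P.ord (mna (NN F x') α1 β1) - B ≤ P.ord (mt d F D E x' e1 α1 β1 b σ).det) :
    ((sw r' s' b : ℕ) - (s' * (d * (ρ + r')) : ℕ)) * pord P x - B ≤
      P.ord ((mt d F D E x e0 α β b σ).det /
        (mna (NN F x) α β ^ s' * (x e0 ^ d) ^ (r' * s'))) := by
  have hx0 : x ≠ 0 := by
    rintro rfl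
    exact he0 rfl
  obtain ⟨lam, x', hlam, hlamP, hxx, hx', e1, he1⟩ := exists_scaled P hx0
  have hld : lam ^ d ≠ 0 := pow_ne_zero _ hlam
  have hNN : NN F x = lam ^ d • NN F x' := by rw [hxx, NN_smul hF]
  have hNN' : NN F x' = (lam ^ d)⁻¹ • NN F x := by
    rw [hNN, smul_smul, inv_mul_cancel₀ hld, one_smul]
  have hv' : Van (NN F x') (ρ + 1) := by
    rw [hNN']
    exact van_smul hv
  have hm' : mnr (NN F x') (α ∘ Sum.inl) (β ∘ Sum.inl) ≠ 0 := by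
    rw [hNN', mnr_smul]
    exact mul_ne_zero (pow_ne_zero _ (inv_ne_zero hld)) hm
  obtain ⟨f1, g1, hfg⟩ := exists_mini P ⟨_, _, hm'⟩
  have hcR : Fintype.card R = ρ + r' := by
    rw [← Fintype.card_congr α, Fintype.card_sum, Fintype.card_fin, Fintype.card_fin]
  have hcS : Fintype.card S = ρ + s' := by
    rw [← Fintype.card_congr β, Fintype.card_sum, Fintype.card_fin, Fintype.card_fin]
  obtain ⟨α1, hα1⟩ := exists_ext (mnr_inj_row hfg.1) hcR
  obtain ⟨β1, hβ1⟩ := exists_ext (mnr_inj_col hfg.1) hcS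
  have hα1' : α1 ∘ Sum.inl = f1 := funext hα1
  have hβ1' : β1 ∘ Sum.inl = g1 := funext hβ1
  rw [← hα1', ← hβ1'] at hfg
  have hfgx : Mini P (NN F x) (α1 ∘ Sum.inl) (β1 ∘ Sum.inl) := by
    rw [hNN]
    exact mini_smul hld hfg
  have hm1 : mna (NN F x) α1 β1 ≠ 0 := hfgx.1
  have hm1' : mna (NN F x') α1 β1 ≠ 0 := hfg.1
  have hxe1 : x e1 = lam := by
    rw [hxx, Pi.smul_apply, he1, smul_eq_mul, mul_one]
  obtain ⟨ε, hε, h1⟩ := det_change (α0 := α) (β0 := β) (α1 := α1) (β1 := β1) hF e0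
    (by rw [hxe1]; exact hlam) hm1 σ hspan
  have h2 := det_lam (d := d) (F := F) (D := D) (E := E) x' lam e1 α1 β1 hb σ
  rw [← hxx] at h2
  have h3 := mna_eq (α0 := α) (β0 := β) hv hm1
  have h4 : mna (NN F x) α1 β1 = (lam ^ d) ^ ρ * mna (NN F x') α1 β1 := by
    rw [hNN, mna_smul]
  obtain ⟨P0, hP0⟩ : ∃ P0, P0 = ((pa (NN F x) α1 β1).submatrix (α ∘ Sum.inl) id).det := ⟨_, rfl⟩
  obtain ⟨Q0, hQ0⟩ : ∃ Q0, Q0 = ((qa (NN F x) α1 β1).submatrix id (β ∘ Sum.inl)).det := ⟨_, rfl⟩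
  have hQge : Ge P 0 Q0 := by
    have := ge_det P ((qa (NN F x) α1 β1).submatrix id (β ∘ Sum.inl)) (c := 0)
      (fun i j => by rw [neg_zero]; exact hfgx.ge_qf _ _)
    rw [mul_zero, neg_zero] at this
    rw [hQ0]
    exact this
  rw [← hP0, ← hQ0] at h1 h3
  have hP00 : P0 ≠ 0 := by
    rintro h0
    rw [h0, zero_mul, zero_mul] at h3
    exact hm h3
  have hQ00 : Q0 ≠ 0 := by
    rintro h0
    rw [h0, mul_zero] at h3
    exact hm h3
  have hQo : 0 ≤ P.ord Q0 := hQge.resolve_left hQ00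
  obtain ⟨M0, hM0⟩ : ∃ M0, M0 = (mt d F D E x e0 α β b σ).det := ⟨_, rfl⟩
  obtain ⟨M1, hM1⟩ : ∃ M1, M1 = (mt d F D E x' e1 α1 β1 b σ).det := ⟨_, rfl⟩
  obtain ⟨δ0, hδ0⟩ : ∃ δ0, δ0 = mna (NN F x) α β := ⟨_, rfl⟩
  obtain ⟨δ1, hδ1⟩ : ∃ δ1, δ1 = mna (NN F x') α1 β1 := ⟨_, rfl⟩
  rw [h4] at h3
  rw [h2, ← hM1, ← hM0, hxe1] at h1
  rw [← hM0] at hdet ⊢
  rw [← hδ1] at h3 hm1'
  rw [← hδ0] at h3 hm ⊢
  have hε0 : ε ≠ 0 := by
    rcases hε with rfl | rfl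
    · exact one_ne_zero
    · exact neg_ne_zero.2 one_ne_zero
  have hεo : P.ord ε = 0 := by
    rcases hε with rfl | rfl
    · exact P.ord_one
    · rw [P.ord_neg, P.ord_one]
  have hxe : x e0 ^ d ≠ 0 := pow_ne_zero _ he0
  have hM10 : M1 ≠ 0 := by
    rintro h0
    rw [h0, mul_zero, mul_zero, mul_zero] at h1
    exact hdet h1
  have hΘ0 : M0 / (δ0 ^ s' * (x e0 ^ d) ^ (r' * s')) ≠ 0 :=
    div_ne_zero hdet (mul_ne_zero (pow_ne_zero _ hm) (pow_ne_zero _ hxe))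
  have h5 : M0 / (δ0 ^ s' * (x e0 ^ d) ^ (r' * s')) * ((lam ^ d) ^ (r' * s') * δ0 ^ s') =
      ε * ((P0 ^ s' * Q0 ^ r') * (lam ^ sw r' s' b * M1)) := by
    rw [h1, div_pow]
    field_simp
  have h6 := congrArg P.ord h5
  have hpl : ∀ m, (lam ^ d) ^ m ≠ 0 := fun m => pow_ne_zero _ hld
  have hpd : δ0 ^ s' ≠ 0 := pow_ne_zero _ hm
  have hpp : P0 ^ s' ≠ 0 := pow_ne_zero _ hP00
  have hpq : Q0 ^ r' ≠ 0 := pow_ne_zero _ hQ00
  have hps : lam ^ sw r' s' b ≠ 0 := pow_ne_zero _ hlam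
  rw [P.ord_mul hΘ0 (mul_ne_zero (hpl _) hpd), P.ord_mul (hpl _) hpd,
    P.ord_mul hε0 (mul_ne_zero (mul_ne_zero hpp hpq) (mul_ne_zero hps hM10)),
    P.ord_mul (mul_ne_zero hpp hpq) (mul_ne_zero hps hM10), P.ord_mul hpp hpq,
    P.ord_mul hps hM10, hεo, P.ord_pow, P.ord_pow, P.ord_pow, P.ord_pow, P.ord_pow, P.ord_pow,
    hlamP] at h6
  have h7 := congrArg P.ord h3
  rw [P.ord_mul (mul_ne_zero hP00 (mul_ne_zero (hpl _) hm1')) hQ00,
    P.ord_mul hP00 (mul_ne_zero (hpl _) hm1'), P.ord_mul (hpl _) hm1', P.ord_pow, P.ord_pow,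
    hlamP] at h7
  have h8 := H x' e1 α1 β1 hx' he1 hv' hfg (by
    rw [← hcard, hxx, Fu_scale_eq x' hlam]) (by rw [← hM1]; exact hM10)
  rw [← hM1, ← hδ1] at h8
  have h9 : ((r' : ℤ) - s') * P.ord Q0 ≥ 0 := mul_nonneg (by
    have : (s' : ℤ) ≤ r' := by exact_mod_cast hrs
    linarith) hQo
  push_cast at h6 ⊢
  have h11 : P.ord (M0 / (δ0 ^ s' * (x e0 ^ d) ^ (r' * s'))) =
      (sw r' s' b - s' * (d * (ρ + r'))) * pord P x + (r' - s') * P.ord Q0 +
        (P.ord M1 - s' * P.ord δ1) := by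
    rw [h7] at h6
    linear_combination h6
  rw [h11]
  linarith

open scoped Classical in
/-- The local inequality. -/
theorem Data.local_est (hdat : Data k d F D E e) (P : Place k K) {x : Fin (n + 1) → K}
    {e0 : Fin (n + 1)} (he0 : x e0 ≠ 0) (hv : Van (NN F x) (ρ + 1))
    {α : Fin ρ ⊕ Fin r' ≃ R} {β : Fin ρ ⊕ Fin s' ≃ S} (hm : mna (NN F x) α β ≠ 0)
    (hrs : s' ≤ r') {b : Finset (Ix X n R S)} (hb : none ∈ b)
    (σ : b ⊕ (Fin r' × Fin s') → Fin (n + 1))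
    (hspan : Sp d F D E x ≤ Submodule.span K (gen d F D E x '' b))
    (hcard : Module.finrank K (Fu d F D E x) = b.card + r' * s')
    (hdet : (mt d F D E x e0 α β b σ).det ≠ 0) :
    ((sw r' s' b : ℕ) - (s' * (d * (ρ + r')) : ℕ)) * pord P x -
      (n + 1 + Fintype.card R * Fintype.card S) * (2 * e P) ≤
      P.ord ((mt d F D E x e0 α β b σ).det /
        (mna (NN F x) α β ^ s' * (x e0 ^ d) ^ (r' * s'))) := by
  have he := (hdat.loc P).e_nonneg
  have hcR : Fintype.card R = ρ + r' := by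
    rw [← Fintype.card_congr α, Fintype.card_sum, Fintype.card_fin, Fintype.card_fin]
  have hcS : Fintype.card S = ρ + s' := by
    rw [← Fintype.card_congr β, Fintype.card_sum, Fintype.card_fin, Fintype.card_fin]
  have h10 : ((ρ * s' : ℕ) : ℤ) * (2 * e P) ≤ (Fintype.card R * Fintype.card S : ℕ) * (2 * e P) := by
    refine mul_le_mul_of_nonneg_right ?_ (by omega)
    have : ρ * s' ≤ Fintype.card R * Fintype.card S := by
      rw [hcR, hcS]
      exact Nat.mul_le_mul (Nat.le_add_right _ _) (Nat.le_add_left _ _)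
    exact_mod_cast this
  push_cast at h10
  refine local_gen P hdat.hom he0 hv hm hrs hb σ hspan hcard hdet
    fun x' e1 α1 β1 hx' he1 hv' hfg hcard' hdet' => ?_
  have h8 := (hdat.loc P).ord_det hx' he1 hv' hfg σ hcard' hdet'
  linarith

variable [IsAlgClosed k] [CharZero k] [IsFF k K]

/-- The height inequality. -/
theorem Data.ineq (hdat : Data k d F D E e) {m : ℕ}
    (hdim : 2 * m + 2 ≤ s' * (d * (ρ + r') + r')) (hrs : s' ≤ r') {x : Fin (n + 1) → K}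
    (hx0 : x ≠ 0) (hrk : Module.finrank K (Fu d F D E x) ≤ m + 1)
    (hv : Van (NN F x) (ρ + 1)) {α : Fin ρ ⊕ Fin r' ≃ R} {β : Fin ρ ⊕ Fin s' ≃ S}
    (hm : mna (NN F x) α β ≠ 0) :
    pht k x ≤ ∑ᶠ P, (n + 1 + Fintype.card R * Fintype.card S) * (2 * e P) := by
  classical
  obtain ⟨e0, he0⟩ := Function.ne_iff.1 hx0
  have hc : LinearIndepOn K (gen d F D E x) {none} := by
    rw [linearIndepOn_singleton_iff]
    exact hx0
  obtain ⟨b, hcb, hbi, hspan, hcard⟩ := exists_rows (α := α) (β := β) hdat.hom hdat.dual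
    hdat.vert he0 hv hm hc
  have hb0 : none ∈ b := hcb rfl
  obtain ⟨σ, hσ⟩ := exists_minor _ hbi
  have hdet : (mt d F D E x e0 α β b σ).det ≠ 0 := by
    unfold mt
    convert hσ
  have hpht : 0 ≤ pht k x :=
    (hgt_nonneg _).trans (Pool.Agent.W603.CX.hgt_le_pht (k := k) x he0 he0)
  have hsw := sw_le r' s' hb0
  have ha : sw r' s' b + 1 ≤ s' * (d * (ρ + r')) := by
    have h1 : s' * (d * (ρ + r') + r') = s' * (d * (ρ + r')) + r' * s' := by ring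
    rw [h1] at hdim
    omega
  refine sum_local hx0 (Θ := (mt d F D E x e0 α β b σ).det /
        (mna (NN F x) α β ^ s' * (x e0 ^ d) ^ (r' * s')))
    (a := (s' * (d * (ρ + r')) : ℕ) - (sw r' s' b : ℕ)) (by omega) ?_ (fun P => ?_) hpht
  · refine hdat.fin.subset fun P hP => ?_
    intro h0
    apply hP
    rw [h0, mul_zero, mul_zero]
  · have h1 := hdat.local_est P he0 hv hm hrs hb0 σ hspan hcard (by convert hdet)
    rw [neg_sub]
    convert h1

end Pool.Agent.T6.H19.DV
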