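import Pool.Agent.T6.H19.DV.Vec

/-!
The derivatives of a point modulo the tangent vectors.
-/

set_option autoImplicit false

open MvPolynomial Pool.Agent.TH145.GH
open Pool.Agent.TH145.GC (Ev Ti tv wv Dual dF_Ev dF_sub dF_self dF_tv Ev_mod)

namespace Pool.Agent.T6.H19.DV

section abstractMod

variable {K : Type} [Field K] {R S : Type} [Fintype R] [Fintype S] [DecidableEq R] [DecidableEq S]
  {M : Type} [AddCommGroup M] [Module K M]

omit [Fintype R] [DecidableEq R] in
theorem mod_col {N : Matrix R S K} {ρ s' : ℕ} {f : Fin ρ → R} (β : Fin ρ ⊕ Fin s' ≃ S)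
    (hfg : mnr N f (β ∘ Sum.inl) ≠ 0) (W : Submodule K M) (τ : S → M)
    (hr : ∀ a', ∑ b, N a' b • τ b ∈ W) (b : S) :
    τ b - ∑ j, vm N f (β ∘ Sum.inl) (β ∘ Sum.inr) b j • τ (β (Sum.inr j)) ∈ W := by
  have hgi : Function.Injective (β ∘ Sum.inl : Fin ρ → S) := β.injective.comp Sum.inl_injective
  have hhi : Function.Injective (β ∘ Sum.inr : Fin s' → S) := β.injective.comp Sum.inr_injective
  have hgh : ∀ i j, (β ∘ Sum.inl : Fin ρ → S) i ≠ (β ∘ Sum.inr : Fin s' → S) j := fun i j h =>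
    absurd (β.injective h) (by simp)
  obtain ⟨c, rfl⟩ := β.surjective b
  rcases c with k | j
  · have h1 : ∑ b, qf N f (β ∘ Sum.inl) k b • τ b ∈ W := by
      have h2 : ∑ b, qf N f (β ∘ Sum.inl) k b • τ b =
          ∑ l, (N.submatrix f (β ∘ Sum.inl))⁻¹ k l • ∑ b, N (f l) b • τ b := by
        simp only [Finset.smul_sum]
        rw [Finset.sum_comm]
        refine Finset.sum_congr rfl fun b _ => ?_
        unfold qf
        rw [Matrix.mul_apply, Finset.sum_smul]
        exact Finset.sum_congr rfl fun l _ => by rw [smul_smul]; rfl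
      rw [h2]
      exact sum_mem fun l _ => Submodule.smul_mem _ _ (hr _)
    have h3 : ∑ b, qf N f (β ∘ Sum.inl) k b • τ b = τ (β (Sum.inl k)) +
        ∑ j, qf N f (β ∘ Sum.inl) k (β (Sum.inr j)) • τ (β (Sum.inr j)) := by
      rw [← Equiv.sum_comp β, Fintype.sum_sum_type]
      congr 1
      have h4 : ∀ l, qf N f (β ∘ Sum.inl) k (β (Sum.inl l)) = if k = l then 1 else 0 := by
        intro l
        have := congrFun (congrFun (qf_sub hfg) k) l
        rw [Matrix.one_apply] at this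
        exact this
      rw [Finset.sum_eq_single k]
      · rw [h4, if_pos rfl, one_smul]
      · intro l _ hl
        rw [h4, if_neg hl.symm, zero_smul]
      · intro h; exact absurd (Finset.mem_univ _) h
    rw [h3] at h1
    have h5 : ∑ j, vm N f (β ∘ Sum.inl) (β ∘ Sum.inr) (β (Sum.inl k)) j • τ (β (Sum.inr j)) =
        -∑ j, qf N f (β ∘ Sum.inl) k (β (Sum.inr j)) • τ (β (Sum.inr j)) := by
      rw [← Finset.sum_neg_distrib]
      refine Finset.sum_congr rfl fun j _ => ?_
      have := vm_inl (N := N) (f := f) hgi hgh k j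
      rw [Function.comp_apply] at this
      rw [this, neg_smul]
      rfl
    rw [h5, sub_neg_eq_add]
    exact h1
  · have h1 : ∑ j', vm N f (β ∘ Sum.inl) (β ∘ Sum.inr) (β (Sum.inr j)) j' • τ (β (Sum.inr j')) =
        τ (β (Sum.inr j)) := by
      have h2 : ∀ j', vm N f (β ∘ Sum.inl) (β ∘ Sum.inr) (β (Sum.inr j)) j' =
          if j = j' then 1 else 0 := fun j' => vm_inr (N := N) (f := f) hhi hgh j j'
      rw [Finset.sum_eq_single j]
      · rw [h2, if_pos rfl, one_smul]
      · intro l _ hl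
        rw [h2, if_neg hl.symm, zero_smul]
      · intro h; exact absurd (Finset.mem_univ _) h
    rw [h1, sub_self]
    exact zero_mem _

omit [Fintype S] [DecidableEq S] in
theorem mod_row {N : Matrix R S K} {ρ r' : ℕ} {g : Fin ρ → S} (α : Fin ρ ⊕ Fin r' ≃ R)
    (hfg : mnr N (α ∘ Sum.inl) g ≠ 0) (W : Submodule K M) (τ : R → M)
    (hr : ∀ b', ∑ a, N a b' • τ a ∈ W) (a : R) :
    τ a - ∑ i, wm N (α ∘ Sum.inl) g (α ∘ Sum.inr) i a • τ (α (Sum.inr i)) ∈ W := by
  have hgi : Function.Injective (α ∘ Sum.inl : Fin ρ → R) := α.injective.comp Sum.inl_injective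
  have hhi : Function.Injective (α ∘ Sum.inr : Fin r' → R) := α.injective.comp Sum.inr_injective
  have hgh : ∀ i j, (α ∘ Sum.inl : Fin ρ → R) i ≠ (α ∘ Sum.inr : Fin r' → R) j := fun i j h =>
    absurd (α.injective h) (by simp)
  obtain ⟨c, rfl⟩ := α.surjective a
  rcases c with k | j
  · have h1 : ∑ a, pf N (α ∘ Sum.inl) g a k • τ a ∈ W := by
      have h2 : ∑ a, pf N (α ∘ Sum.inl) g a k • τ a =
          ∑ l, (N.submatrix (α ∘ Sum.inl) g)⁻¹ l k • ∑ a, N a (g l) • τ a := by
        simp only [Finset.smul_sum]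
        rw [Finset.sum_comm]
        refine Finset.sum_congr rfl fun a _ => ?_
        unfold pf
        rw [Matrix.mul_apply, Finset.sum_smul]
        exact Finset.sum_congr rfl fun l _ => by rw [smul_smul, mul_comm]; rfl
      rw [h2]
      exact sum_mem fun l _ => Submodule.smul_mem _ _ (hr _)
    have h3 : ∑ a, pf N (α ∘ Sum.inl) g a k • τ a = τ (α (Sum.inl k)) +
        ∑ i, pf N (α ∘ Sum.inl) g (α (Sum.inr i)) k • τ (α (Sum.inr i)) := by
      rw [← Equiv.sum_comp α, Fintype.sum_sum_type]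
      congr 1
      have h4 : ∀ l, pf N (α ∘ Sum.inl) g (α (Sum.inl l)) k = if l = k then 1 else 0 := by
        intro l
        have := congrFun (congrFun (pf_sub hfg) l) k
        rw [Matrix.one_apply] at this
        exact this
      rw [Finset.sum_eq_single k]
      · rw [h4, if_pos rfl, one_smul]
      · intro l _ hl
        rw [h4, if_neg hl, zero_smul]
      · intro h; exact absurd (Finset.mem_univ _) h
    rw [h3] at h1
    have h5 : ∑ i, wm N (α ∘ Sum.inl) g (α ∘ Sum.inr) i (α (Sum.inl k)) • τ (α (Sum.inr i)) =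
        -∑ i, pf N (α ∘ Sum.inl) g (α (Sum.inr i)) k • τ (α (Sum.inr i)) := by
      rw [← Finset.sum_neg_distrib]
      refine Finset.sum_congr rfl fun i _ => ?_
      have := wm_inl (N := N) (g := g) hgi hgh k i
      rw [Function.comp_apply] at this
      rw [this, neg_smul]
      rfl
    rw [h5, sub_neg_eq_add]
    exact h1
  · have h1 : ∑ i, wm N (α ∘ Sum.inl) g (α ∘ Sum.inr) i (α (Sum.inr j)) • τ (α (Sum.inr i)) =
        τ (α (Sum.inr j)) := by
      have h2 : ∀ i, wm N (α ∘ Sum.inl) g (α ∘ Sum.inr) i (α (Sum.inr j)) =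
          if i = j then 1 else 0 := fun i => wm_inr (N := N) (g := g) hhi hgh i j
      rw [Finset.sum_eq_single j]
      · rw [h2, if_pos rfl, one_smul]
      · intro l _ hl
        rw [h2, if_neg hl, zero_smul]
      · intro h; exact absurd (Finset.mem_univ _) h
    rw [h1, sub_self]
    exact zero_mem _

theorem mod_both {N : Matrix R S K} {ρ r' s' : ℕ} (α : Fin ρ ⊕ Fin r' ≃ R) (β : Fin ρ ⊕ Fin s' ≃ S)
    (hfg : mnr N (α ∘ Sum.inl) (β ∘ Sum.inl) ≠ 0) (W : Submodule K M) (τ : R → S → M)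
    (hr : ∀ a a', ∑ b, N a' b • τ a b ∈ W) (hc : ∀ b b', ∑ a, N a b' • τ a b ∈ W) (a : R) (b : S) :
    τ a b - ∑ i, ∑ j, (wm N (α ∘ Sum.inl) (β ∘ Sum.inl) (α ∘ Sum.inr) i a *
      vm N (α ∘ Sum.inl) (β ∘ Sum.inl) (β ∘ Sum.inr) b j) •
        τ (α (Sum.inr i)) (β (Sum.inr j)) ∈ W := by
  have h1 := mod_col β hfg W (τ a) (hr a) b
  have h2 : ∀ j, τ a (β (Sum.inr j)) - ∑ i, wm N (α ∘ Sum.inl) (β ∘ Sum.inl) (α ∘ Sum.inr) i a •
      τ (α (Sum.inr i)) (β (Sum.inr j)) ∈ W := fun j =>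
    mod_row α hfg W (fun a => τ a (β (Sum.inr j))) (hc _) a
  have h3 : τ a b - ∑ i, ∑ j, (wm N (α ∘ Sum.inl) (β ∘ Sum.inl) (α ∘ Sum.inr) i a *
      vm N (α ∘ Sum.inl) (β ∘ Sum.inl) (β ∘ Sum.inr) b j) • τ (α (Sum.inr i)) (β (Sum.inr j)) =
      (τ a b - ∑ j, vm N (α ∘ Sum.inl) (β ∘ Sum.inl) (β ∘ Sum.inr) b j • τ a (β (Sum.inr j))) +
      ∑ j, vm N (α ∘ Sum.inl) (β ∘ Sum.inl) (β ∘ Sum.inr) b j • (τ a (β (Sum.inr j)) -
        ∑ i, wm N (α ∘ Sum.inl) (β ∘ Sum.inl) (α ∘ Sum.inr) i a •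
          τ (α (Sum.inr i)) (β (Sum.inr j))) := by
    simp only [smul_sub, Finset.sum_sub_distrib, Finset.smul_sum]
    rw [Finset.sum_comm]
    simp only [smul_smul, mul_comm]
    abel
  rw [h3]
  exact add_mem h1 (sum_mem fun j _ => Submodule.smul_mem _ _ (h2 j))

end abstractMod

variable {K : Type} [Field K] {n : ℕ} {R S X : Type}

/-- The indices of the vector fields. -/
abbrev Ix (X : Type) (n : ℕ) (R S : Type) := Option (X ⊕ (Ti n (R × S) ⊕ ((R × R) ⊕ (S × S))))

section

variable [Fintype R] [Fintype S]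

/-- The position vector, the vertical vector fields, the tangent vector fields, and the vector
fields of the row and column operations. -/
noncomputable def gen (d : ℕ) (F : R × S → MvPolynomial (Fin (n + 1)) K)
    (D : R × S → (Fin (n + 1) →₀ ℕ) → Derivation ℤ K K) (E : X → Derivation ℤ K K)
    (x : Fin (n + 1) → K) : Ix X n R S → Fin (n + 1) → K
  | none => x
  | some (Sum.inl ξ) => ev (E ξ) x
  | some (Sum.inr (Sum.inl t)) => tv (fun _ => d) D x t
  | some (Sum.inr (Sum.inr (Sum.inl p))) => ev (Rop F D p.1 p.2) x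
  | some (Sum.inr (Sum.inr (Sum.inr p))) => ev (Cop F D p.1 p.2) x

variable {d : ℕ} {F : R × S → MvPolynomial (Fin (n + 1)) K}
  {D : R × S → (Fin (n + 1) →₀ ℕ) → Derivation ℤ K K} {E : X → Derivation ℤ K K}

/-- The span of the vector fields. -/
noncomputable def Sp (d : ℕ) (F : R × S → MvPolynomial (Fin (n + 1)) K)
    (D : R × S → (Fin (n + 1) →₀ ℕ) → Derivation ℤ K K) (E : X → Derivation ℤ K K)
    (x : Fin (n + 1) → K) : Submodule K (Fin (n + 1) → K) :=
  Submodule.span K (Set.range (gen d F D E x))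

theorem gen_mem (x : Fin (n + 1) → K) (o : Ix X n R S) : gen d F D E x o ∈ Sp d F D E x :=
  Submodule.subset_span ⟨o, rfl⟩

theorem Ev_mod' (x : Fin (n + 1) → K) {e : Fin (n + 1)} (he : x e ≠ 0) (p : R × S)
    {J : Fin (n + 1) →₀ ℕ} (hJ : J.degree = d) :
    Ev D x p J - (mon x J / x e ^ d) • Ev D x p (Finsupp.single e d) ∈ Sp d F D E x := by
  have h1 := Ev_mod (fun _ => d) D x e he p _ J hJ rfl
  refine (Submodule.span_le.2 ?_) h1
  rintro _ ⟨o, rfl⟩
  rcases o with _ | t
  · exact gen_mem (d := d) (F := F) (D := D) (E := E) x none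
  · exact gen_mem (d := d) (F := F) (D := D) (E := E) x (some (Sum.inr (Sum.inl t)))

theorem rel_row (hF : ∀ p, (F p).IsHomogeneous d) (x : Fin (n + 1) → K) {e : Fin (n + 1)}
    (he : x e ≠ 0) (a a' : R) :
    ∑ b, NN F x a' b • Ev D x (a, b) (Finsupp.single e d) ∈ Sp d F D E x := by
  have h1 : ev (Rop F D a a') x ∈ Sp d F D E x :=
    gen_mem (d := d) (F := F) (D := D) (E := E) x (some (Sum.inr (Sum.inr (Sum.inl (a, a')))))
  have h2 : x e ^ d • ev (Rop F D a a') x - ∑ b, NN F x a' b • Ev D x (a, b) (Finsupp.single e d) ∈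
      Sp d F D E x := by
    have h3 : x e ^ d • ev (Rop F D a a') x - ∑ b, NN F x a' b • Ev D x (a, b) (Finsupp.single e d) =
        ∑ b, ∑ I ∈ (F (a', b)).support, (x e ^ d * (F (a', b)).coeff I) •
          (Ev D x (a, b) I - (mon x I / x e ^ d) • Ev D x (a, b) (Finsupp.single e d)) := by
      rw [ev_Rop, Finset.smul_sum, ← Finset.sum_sub_distrib]
      refine Finset.sum_congr rfl fun b _ => ?_
      have h4 : NN F x a' b = ∑ I ∈ (F (a', b)).support, (F (a', b)).coeff I * mon x I :=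
        (eval_sum _ _).symm
      rw [h4, Finset.smul_sum, Finset.sum_smul, ← Finset.sum_sub_distrib]
      refine Finset.sum_congr rfl fun I _ => ?_
      rw [smul_sub, smul_smul, smul_smul]
      congr 2
      have := pow_ne_zero d he
      field_simp
    rw [h3]
    refine sum_mem fun b _ => sum_mem fun I hI => Submodule.smul_mem _ _ ?_
    exact Ev_mod' x he _ (deg_of_mem (hF _) hI)
  have h3 := sub_mem (Submodule.smul_mem _ (x e ^ d) h1) h2
  rwa [sub_sub_cancel] at h3

theorem rel_col (hF : ∀ p, (F p).IsHomogeneous d) (x : Fin (n + 1) → K) {e : Fin (n + 1)}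
    (he : x e ≠ 0) (b b' : S) :
    ∑ a, NN F x a b' • Ev D x (a, b) (Finsupp.single e d) ∈ Sp d F D E x := by
  have h1 : ev (Cop F D b b') x ∈ Sp d F D E x :=
    gen_mem (d := d) (F := F) (D := D) (E := E) x (some (Sum.inr (Sum.inr (Sum.inr (b, b')))))
  have h2 : x e ^ d • ev (Cop F D b b') x - ∑ a, NN F x a b' • Ev D x (a, b) (Finsupp.single e d) ∈
      Sp d F D E x := by
    have h3 : x e ^ d • ev (Cop F D b b') x - ∑ a, NN F x a b' • Ev D x (a, b) (Finsupp.single e d) =
        ∑ a, ∑ I ∈ (F (a, b')).support, (x e ^ d * (F (a, b')).coeff I) •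
          (Ev D x (a, b) I - (mon x I / x e ^ d) • Ev D x (a, b) (Finsupp.single e d)) := by
      rw [ev_Cop, Finset.smul_sum, ← Finset.sum_sub_distrib]
      refine Finset.sum_congr rfl fun a _ => ?_
      have h4 : NN F x a b' = ∑ I ∈ (F (a, b')).support, (F (a, b')).coeff I * mon x I :=
        (eval_sum _ _).symm
      rw [h4, Finset.smul_sum, Finset.sum_smul, ← Finset.sum_sub_distrib]
      refine Finset.sum_congr rfl fun I _ => ?_
      rw [smul_sub, smul_smul, smul_smul]
      congr 2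
      have := pow_ne_zero d he
      field_simp
    rw [h3]
    refine sum_mem fun b _ => sum_mem fun I hI => Submodule.smul_mem _ _ ?_
    exact Ev_mod' x he _ (deg_of_mem (hF _) hI)
  have h3 := sub_mem (Submodule.smul_mem _ (x e ^ d) h1) h2
  rwa [sub_sub_cancel] at h3

end

end Pool.Agent.T6.H19.DV
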