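import Pool.Agent.T6.H19.DV.Ineq
import Pool.Agent.TH145.GC.DataE

/-!
The dimension of the space of the tangent vectors.
-/

set_option autoImplicit false

open MvPolynomial FF Pool.Agent.TH145.GH Pool.Agent.TH145.MG Pool.Agent.W602.GT
  Pool.Agent.W603.LV Pool.Agent.W603.PV
open Pool.Agent.TH145.GC (Ev Ti tv wv Dual Tan der_zero_of_alg Gen Cf finite_cf)

namespace Pool.Agent.T6.H19.DV

variable {k0 L : Type} [Field k0] [Field L] [Algebra k0 L] {n : ℕ} {R S X : Type} [Fintype R]
  [Fintype S] {d : ℕ} {F : R × S → MvPolynomial (Fin (n + 1)) L}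
  {D : R × S → (Fin (n + 1) →₀ ℕ) → Derivation ℤ L L} {E : X → Derivation ℤ L L}

theorem Fu_le_tan (hDk : ∀ a I (r : k0), D a I (algebraMap k0 L r) = 0)
    (hEk : ∀ ξ (r : k0), E ξ (algebraMap k0 L r) = 0) (x : Fin (n + 1) → L) :
    Fu d F D E x ≤ Tan k0 x := by
  have hE : ∀ D' : Derivation ℤ L L, (∀ r : k0, D' (algebraMap k0 L r) = 0) →
      ev D' x ∈ Tan k0 x := fun D' h =>
    ⟨0, D', h, fun l => by rw [zero_mul, zero_add]; rfl⟩
  unfold Fu
  rw [Submodule.span_le]
  rintro _ (⟨o, rfl⟩ | ⟨a, I, hI, rfl⟩)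
  · rcases o with _ | ξ | t | p | p
    · exact ⟨1, 0, fun _ => rfl, fun l => by simp [gen]⟩
    · exact hE _ (hEk ξ)
    · simp only [gen, tv]
      split_ifs
      · exact sub_mem (Submodule.smul_mem _ _ (hE _ (hDk _ _)))
          (Submodule.smul_mem _ _ (hE _ (hDk _ _)))
      · exact zero_mem _
    · refine hE _ fun r => ?_
      rw [Rop_apply]
      exact Finset.sum_eq_zero fun b _ => Finset.sum_eq_zero fun I _ => by rw [hDk, mul_zero]
    · refine hE _ fun r => ?_
      rw [Cop_apply]
      exact Finset.sum_eq_zero fun b _ => Finset.sum_eq_zero fun I _ => by rw [hDk, mul_zero]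
  · exact hE _ (hDk _ _)

theorem finrank_tan_le [CharZero L] {x : Fin (n + 1) → L} {l0 : Fin (n + 1)} (hx0 : x l0 = 1)
    {m : ℕ} (h : Algebra.trdeg k0 (coords k0 x) ≤ m) : Module.finrank L (Tan k0 x) ≤ m + 1 := by
  classical
  obtain ⟨I, hI, hIx⟩ := exists_basis x l0 hx0 h
  obtain ⟨ρ, hρ⟩ : ∃ ρ : Tan k0 x →ₗ[L] ({i // i ∈ insert l0 I} → L), ∀ z i, ρ z i = z.1 i.1 :=
    ⟨{ toFun := fun z i => z.1 i.1
       map_add' := fun _ _ => rfl
       map_smul' := fun _ _ => rfl }, fun _ _ => rfl⟩
  have hinj : Function.Injective ρ := by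
    rw [← LinearMap.ker_eq_bot, LinearMap.ker_eq_bot']
    rintro ⟨z, c, E, hE, hz⟩ h0
    have h1 : ∀ i ∈ insert l0 I, z i = 0 := fun i hi => by
      have := congrFun h0 ⟨i, hi⟩
      rw [hρ] at this
      exact this
    have hc : c = 0 := by
      have h2 := h1 l0 (Finset.mem_insert_self _ _)
      rw [hz, hx0, E.map_one_eq_zero, mul_one, add_zero] at h2
      exact h2
    have hEI : ∀ i ∈ I, E (x i) = 0 := fun i hi => by
      have h2 := h1 i (Finset.mem_insert_of_mem hi)
      rwa [hz, hc, zero_mul, zero_add] at h2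
    -- the field of the constants
    have hZ : ∀ w ∈ Subfield.closure (Set.range (algebraMap k0 L) ∪ x '' (I : Set (Fin (n + 1)))),
        E w = 0 := by
      intro w hw
      induction hw using Subfield.closure_induction with
      | mem w hw =>
        rcases hw with ⟨r, rfl⟩ | ⟨i, hi, rfl⟩
        · exact hE r
        · exact hEI i hi
      | one => exact E.map_one_eq_zero
      | add a b _ _ ha hb => rw [map_add, ha, hb, add_zero]
      | neg a _ ha => rw [map_neg, ha, neg_zero]
      | inv a _ ha => rw [Derivation.leibniz_inv, ha, smul_zero]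
      | mul a b _ _ ha hb => rw [E.leibniz, ha, hb, smul_zero, smul_zero, add_zero]
    have hx : ∀ i, E (x i) = 0 := by
      intro i
      refine der_zero_of_alg E _ hZ ?_
      have h2 := mem_cl.1 (hIx i)
      have h3 : (IntermediateField.adjoin k0 (x '' (I : Set (Fin (n + 1))))).toSubfield =
        Subfield.closure (Set.range (algebraMap k0 L) ∪ x '' (I : Set (Fin (n + 1)))) :=
        IntermediateField.adjoin_toSubfield _ _
      rw [← h3]
      exact h2
    apply Subtype.ext
    funext l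
    change z l = 0
    rw [hz, hc, hx, zero_mul, add_zero]
  have h1 := LinearMap.finrank_le_finrank_of_injective hinj
  rw [Module.finrank_pi, Fintype.card_coe] at h1
  have h2 := Finset.card_insert_le l0 I
  omega

/-- The dimension of the space of the tangent vectors. -/
theorem rank_le [CharZero L] (hDk : ∀ a I (r : k0), D a I (algebraMap k0 L r) = 0)
    (hEk : ∀ ξ (r : k0), E ξ (algebraMap k0 L r) = 0)
    {x : Fin (n + 1) → L} {l0 : Fin (n + 1)} (hx0 : x l0 = 1) {m : ℕ}
    (h : Algebra.trdeg k0 (coords k0 x) ≤ m) : Module.finrank L (Fu d F D E x) ≤ m + 1 :=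
  (Submodule.finrank_mono (Fu_le_tan hDk hEk x)).trans (finrank_tan_le hx0 h)

end Pool.Agent.T6.H19.DV
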