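import Pool.Agent.T6.H19.DV.Mod

/-!
Choice of the vector fields.
-/

set_option autoImplicit false

open MvPolynomial Pool.Agent.TH145.GH
open Pool.Agent.TH145.GC (Ev Ti tv wv Dual dF_Ev dF_sub dF_self dF_tv Ev_mod)

namespace Pool.Agent.T6.H19.DV

section

variable {K : Type} [Field K] {R S : Type} [Fintype R] [Fintype S] [DecidableEq R] [DecidableEq S]
  {ρ r' s' : ℕ}

/-- The minor of the first rows and columns. -/
noncomputable def mna (N : Matrix R S K) (α : Fin ρ ⊕ Fin r' ≃ R) (β : Fin ρ ⊕ Fin s' ≃ S) : K :=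
  mnr N (α ∘ Sum.inl) (β ∘ Sum.inl)

/-- The relations between the rows. -/
noncomputable def wa (N : Matrix R S K) (α : Fin ρ ⊕ Fin r' ≃ R) (β : Fin ρ ⊕ Fin s' ≃ S) :
    Matrix (Fin r') R K := wm N (α ∘ Sum.inl) (β ∘ Sum.inl) (α ∘ Sum.inr)

/-- The relations between the columns. -/
noncomputable def va (N : Matrix R S K) (α : Fin ρ ⊕ Fin r' ≃ R) (β : Fin ρ ⊕ Fin s' ≃ S) :
    Matrix S (Fin s') K := vm N (α ∘ Sum.inl) (β ∘ Sum.inl) (β ∘ Sum.inr)

variable {N : Matrix R S K} {α : Fin ρ ⊕ Fin r' ≃ R} {β : Fin ρ ⊕ Fin s' ≃ S}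

omit [Fintype R] [DecidableEq R] in
theorem mul_va (hv : Van N (ρ + 1)) (h : mna N α β ≠ 0) : N * va N α β = 0 := mul_vm hv h _

omit [Fintype S] [DecidableEq S] in
theorem wa_mul (hv : Van N (ρ + 1)) (h : mna N α β ≠ 0) : wa N α β * N = 0 := wm_mul hv h _

theorem wva_der (hv : Van N (ρ + 1)) (h : mna N α β ≠ 0) (D : Derivation ℤ K K) :
    wa N α β * N.map D * va N α β = 0 := by
  have h1 := map_mul_der D N (va N α β)
  rw [mul_va hv h] at h1
  have h2 : (0 : Matrix R (Fin s') K).map D = 0 := by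
    ext i j
    simp
  rw [h2] at h1
  have h3 : N.map D * va N α β = -(N * (va N α β).map D) := by
    rw [eq_neg_iff_add_eq_zero]
    exact h1.symm
  rw [Matrix.mul_assoc, h3, Matrix.mul_neg, ← Matrix.mul_assoc, wa_mul hv h, Matrix.zero_mul,
    neg_zero]

omit [Fintype S] [DecidableEq S] [Fintype R] in
theorem wa_inr (i i' : Fin r') : wa N α β i (α (Sum.inr i')) = if i = i' then 1 else 0 :=
  wm_inr (h := α ∘ Sum.inr) (α.injective.comp Sum.inr_injective)
    (fun i j h => absurd (α.injective h) (by simp)) i i'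

omit [Fintype S] [DecidableEq R] [Fintype R] in
theorem va_inr (j j' : Fin s') : va N α β (β (Sum.inr j)) j' = if j = j' then 1 else 0 :=
  vm_inr (h := β ∘ Sum.inr) (β.injective.comp Sum.inr_injective)
    (fun i j h => absurd (β.injective h) (by simp)) j j'

theorem single_both {A B : Type} [Fintype A] [Fintype B] (w : Matrix A R K) (v : Matrix S B K)
    (a : R) (b : S) (i : A) (j : B) :
    (w * Matrix.single a b (1 : K) * v) i j = w i a * v b j := by
  have h1 : ∀ l, (w * Matrix.single a b (1 : K)) i l = if b = l then w i a else 0 := by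
    intro l
    rw [Matrix.mul_apply, Finset.sum_eq_single a]
    · rw [Matrix.single_apply]
      by_cases h : b = l
      · rw [if_pos ⟨rfl, h⟩, if_pos h, mul_one]
      · rw [if_neg (by tauto), if_neg h, mul_zero]
    · intro c _ hc
      rw [Matrix.single_apply, if_neg (by tauto), mul_zero]
    · intro h; exact absurd (Finset.mem_univ _) h
  rw [Matrix.mul_apply, Finset.sum_eq_single b]
  · rw [h1, if_pos rfl]
  · intro c _ hc
    rw [h1, if_neg (Ne.symm hc), zero_mul]
  · intro h; exact absurd (Finset.mem_univ _) h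

end

variable {K : Type} [Field K] {n : ℕ} {R S X : Type} [Fintype R] [Fintype S] [DecidableEq R]
  [DecidableEq S] {ρ r' s' d : ℕ} {F : R × S → MvPolynomial (Fin (n + 1)) K}
  {D : R × S → (Fin (n + 1) →₀ ℕ) → Derivation ℤ K K} {E : X → Derivation ℤ K K}

/-- The functional that detects the normal directions. -/
noncomputable def Phi (F : R × S → MvPolynomial (Fin (n + 1)) K) (x : Fin (n + 1) → K)
    (α : Fin ρ ⊕ Fin r' ≃ R) (β : Fin ρ ⊕ Fin s' ≃ S) :
    (Fin (n + 1) → K) →ₗ[K] Matrix (Fin r') (Fin s') K where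
  toFun z := wa (NN F x) α β * dN F x z * va (NN F x) α β
  map_add' y z := by rw [map_add, Matrix.mul_add, Matrix.add_mul]
  map_smul' c z := by rw [map_smul, Matrix.mul_smul, Matrix.smul_mul]; rfl

theorem Phi_apply (x z : Fin (n + 1) → K) (α : Fin ρ ⊕ Fin r' ≃ R) (β : Fin ρ ⊕ Fin s' ≃ S) :
    Phi F x α β z = wa (NN F x) α β * dN F x z * va (NN F x) α β := rfl

section

variable {x : Fin (n + 1) → K} {α : Fin ρ ⊕ Fin r' ≃ R} {β : Fin ρ ⊕ Fin s' ≃ S}

theorem Phi_gen (hF : ∀ p, (F p).IsHomogeneous d) (hD : Dual F (fun _ => d) D)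
    (hE : ∀ ξ p u, E ξ ((F p).coeff u) = 0) (hv : Van (NN F x) (ρ + 1))
    (hm : mna (NN F x) α β ≠ 0) (o : Ix X n R S) : Phi F x α β (gen d F D E x o) = 0 := by
  have hder : ∀ D' : Derivation ℤ K K, wa (NN F x) α β * (NN F x).map D' * va (NN F x) α β = 0 :=
    wva_der hv hm
  rw [Phi_apply]
  rcases o with _ | ξ | t | p | p
  · simp only [gen]
    rw [dN_self hF, Matrix.mul_smul, wa_mul hv hm, smul_zero, Matrix.zero_mul]
  · simp only [gen]
    rw [dN_ev (hE ξ), hder]
  · simp only [gen]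
    by_cases ht : t.2.1.degree + 1 = d
    · rw [dN_tv hF hD x t ht, Matrix.mul_sub, Matrix.sub_mul, Matrix.mul_smul, Matrix.mul_smul,
        Matrix.smul_mul, Matrix.smul_mul, hder, hder, smul_zero, smul_zero, sub_zero]
    · rw [dN_tv0 x t ht, Matrix.mul_zero, Matrix.zero_mul]
  · simp only [gen]
    rw [dN_Rop hF hD, Matrix.mul_sub, Matrix.sub_mul, hder, zero_sub, Matrix.mul_assoc,
      Matrix.mul_assoc, mul_va hv hm, Matrix.mul_zero, Matrix.mul_zero, neg_zero]
  · simp only [gen]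
    rw [dN_Cop hF hD, Matrix.mul_sub, Matrix.sub_mul, hder, zero_sub, ← Matrix.mul_assoc,
      wa_mul hv hm, Matrix.zero_mul, Matrix.zero_mul, neg_zero]

theorem Phi_Sp (hF : ∀ p, (F p).IsHomogeneous d) (hD : Dual F (fun _ => d) D)
    (hE : ∀ ξ p u, E ξ ((F p).coeff u) = 0) (hv : Van (NN F x) (ρ + 1))
    (hm : mna (NN F x) α β ≠ 0) {z : Fin (n + 1) → K} (hz : z ∈ Sp d F D E x) :
    Phi F x α β z = 0 := by
  have h1 : Sp d F D E x ≤ LinearMap.ker (Phi F x α β) := by
    unfold Sp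
    rw [Submodule.span_le]
    rintro _ ⟨o, rfl⟩
    exact Phi_gen hF hD hE hv hm o
  exact h1 hz

theorem Phi_Ev (hF : ∀ p, (F p).IsHomogeneous d) (hD : Dual F (fun _ => d) D)
    (hv : Van (NN F x) (ρ + 1)) (hm : mna (NN F x) α β ≠ 0) (a : R) (b : S)
    {I : Fin (n + 1) →₀ ℕ} (hI : I.degree = d) (i : Fin r') (j : Fin s') :
    Phi F x α β (Ev D x (a, b) I) i j =
      -(mon x I * (wa (NN F x) α β i a * va (NN F x) α β b j)) := by
  rw [Phi_apply, dN_Ev hF hD x a b hI, Matrix.mul_sub, Matrix.sub_mul, wva_der hv hm, zero_sub,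
    Matrix.mul_smul, Matrix.smul_mul, Matrix.neg_apply, Matrix.smul_apply, single_both,
    smul_eq_mul]

end

/-- The rows. -/
noncomputable def rv (d : ℕ) (F : R × S → MvPolynomial (Fin (n + 1)) K)
    (D : R × S → (Fin (n + 1) →₀ ℕ) → Derivation ℤ K K) (E : X → Derivation ℤ K K)
    (x : Fin (n + 1) → K) (e : Fin (n + 1)) (α : Fin ρ ⊕ Fin r' ≃ R) (β : Fin ρ ⊕ Fin s' ≃ S) :
    Ix X n R S ⊕ (Fin r' × Fin s') → Fin (n + 1) → K
  | Sum.inl o => gen d F D E x o
  | Sum.inr p => Ev D x (α (Sum.inr p.1), β (Sum.inr p.2)) (Finsupp.single e d)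

/-- The span of all the vector fields. -/
noncomputable def Fu (d : ℕ) (F : R × S → MvPolynomial (Fin (n + 1)) K)
    (D : R × S → (Fin (n + 1) →₀ ℕ) → Derivation ℤ K K) (E : X → Derivation ℤ K K)
    (x : Fin (n + 1) → K) : Submodule K (Fin (n + 1) → K) :=
  Submodule.span K (Set.range (gen d F D E x) ∪ {v | ∃ p I, I.degree = d ∧ v = Ev D x p I})

/-- The index of a row. -/
def ri {b : Finset (Ix X n R S)} (i : b ⊕ (Fin r' × Fin s')) : Ix X n R S ⊕ (Fin r' × Fin s') :=
  Sum.map Subtype.val id i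

section

variable {x : Fin (n + 1) → K} {α : Fin ρ ⊕ Fin r' ≃ R} {β : Fin ρ ⊕ Fin s' ≃ S}

omit [DecidableEq R] [DecidableEq S] in
theorem Sp_le_Fu (x : Fin (n + 1) → K) : Sp d F D E x ≤ Fu d F D E x :=
  Submodule.span_mono Set.subset_union_left

omit [DecidableEq R] [DecidableEq S] in
theorem Ev_mem_Fu (x : Fin (n + 1) → K) (p : R × S) {I : Fin (n + 1) →₀ ℕ} (hI : I.degree = d) :
    Ev D x p I ∈ Fu d F D E x := Submodule.subset_span (Or.inr ⟨p, I, hI, rfl⟩)

omit [DecidableEq R] [DecidableEq S] in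
theorem rv_mem_Fu (x : Fin (n + 1) → K) (e : Fin (n + 1)) (i : Ix X n R S ⊕ (Fin r' × Fin s')) :
    rv d F D E x e α β i ∈ Fu d F D E x := by
  rcases i with o | p
  · exact Sp_le_Fu x (gen_mem x o)
  · exact Ev_mem_Fu x _ (Finsupp.degree_single _ _)

/-- The derivatives in terms of the chosen rows. -/
theorem Ev_mod_all (hF : ∀ p, (F p).IsHomogeneous d) {e : Fin (n + 1)} (he : x e ≠ 0)
    (hm : mna (NN F x) α β ≠ 0) (a : R) (b : S) {I : Fin (n + 1) →₀ ℕ} (hI : I.degree = d) :
    Ev D x (a, b) I - (mon x I / x e ^ d) • ∑ i, ∑ j, (wa (NN F x) α β i a *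
      va (NN F x) α β b j) • Ev D x (α (Sum.inr i), β (Sum.inr j)) (Finsupp.single e d) ∈
      Sp d F D E x := by
  have h1 := Ev_mod' (d := d) (F := F) (D := D) (E := E) x he (a, b) hI
  have h2 := mod_both α β hm (Sp d F D E x) (fun a b => Ev D x (a, b) (Finsupp.single e d))
    (fun a a' => rel_row hF x he a a') (fun b b' => rel_col hF x he b b') a b
  have h3 := add_mem h1 (Submodule.smul_mem _ (mon x I / x e ^ d) h2)
  rw [smul_sub] at h3
  convert h3 using 1
  unfold wa va
  abel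

/-- The choice of the rows. -/
theorem exists_rows (hF : ∀ p, (F p).IsHomogeneous d) (hD : Dual F (fun _ => d) D)
    (hE : ∀ ξ p u, E ξ ((F p).coeff u) = 0) {e : Fin (n + 1)} (he : x e ≠ 0)
    (hv : Van (NN F x) (ρ + 1)) (hm : mna (NN F x) α β ≠ 0) {c : Set (Ix X n R S)}
    (hc : LinearIndepOn K (gen d F D E x) c) :
    ∃ b : Finset (Ix X n R S), c ⊆ b ∧
      LinearIndependent K (fun i : b ⊕ (Fin r' × Fin s') => rv d F D E x e α β (ri i)) ∧
      Sp d F D E x ≤ Submodule.span K (gen d F D E x '' b) ∧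
      Module.finrank K (Fu d F D E x) = b.card + r' * s' := by
  classical
  obtain ⟨b0, -, hcb, hspan0, hb0⟩ := exists_linearIndepOn_extension hc (Set.subset_univ _)
  have hb0' : LinearIndependent K (fun i : b0 => gen d F D E x i) := hb0
  have hfin : b0.Finite := by
    have := hb0'.finite
    exact Set.toFinite b0
  obtain ⟨b, hb⟩ : ∃ b : Finset (Ix X n R S), (b : Set _) = b0 :=
    ⟨hfin.toFinset, hfin.coe_toFinset⟩
  rw [← hb] at hcb hspan0 hb0
  have hbi : LinearIndependent K (fun i : b => gen d F D E x i) := hb0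
  have hspan : Sp d F D E x ≤ Submodule.span K (gen d F D E x '' b) := by
    unfold Sp
    rw [Submodule.span_le]
    rintro _ ⟨o, rfl⟩
    exact hspan0 ⟨o, Set.mem_univ _, rfl⟩
  obtain ⟨T, hT⟩ : ∃ T : Fin r' × Fin s' → Fin (n + 1) → K, ∀ p, T p =
    Ev D x (α (Sum.inr p.1), β (Sum.inr p.2)) (Finsupp.single e d) := ⟨_, fun _ => rfl⟩
  have hxd : x e ^ d ≠ 0 := pow_ne_zero _ he
  have hΦT : ∀ p q, Phi F x α β (T p) q.1 q.2 = if p = q then -(x e ^ d) else 0 := by
    intro p q
    rw [hT, Phi_Ev hF hD hv hm _ _ (Finsupp.degree_single _ _), wa_inr, va_inr, mon_single]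
    by_cases hpq : p = q
    · rw [if_pos (by rw [hpq]), if_pos (by rw [hpq]), if_pos hpq, mul_one, mul_one]
    · rw [if_neg hpq]
      by_cases h1 : q.1 = p.1
      · rw [if_neg (c := p.2 = q.2) (fun h2 => hpq (Prod.ext h1.symm h2)), mul_zero, mul_zero,
          neg_zero]
      · rw [if_neg h1, zero_mul, mul_zero, neg_zero]
  have hΦsum : ∀ (c : Fin r' × Fin s' → K) q, Phi F x α β (∑ p, c p • T p) q.1 q.2 =
      -(c q * x e ^ d) := by
    intro c q
    rw [map_sum, Matrix.sum_apply, Finset.sum_eq_single q]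
    · rw [map_smul, Matrix.smul_apply, hΦT, if_pos rfl, smul_eq_mul, mul_neg]
    · intro p _ hp
      rw [map_smul, Matrix.smul_apply, hΦT, if_neg hp, smul_zero]
    · intro h; exact absurd (Finset.mem_univ _) h
  have hTi : LinearIndependent K T := by
    rw [Fintype.linearIndependent_iff]
    intro c hc0 q
    have h1 := hΦsum c q
    rw [hc0, map_zero, Matrix.zero_apply] at h1
    have h2 : c q * x e ^ d = 0 := by
      rw [← neg_eq_zero]; exact h1.symm
    exact (mul_eq_zero.1 h2).resolve_right hxd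
  have hdisj : Disjoint (Submodule.span K (Set.range fun i : b => gen d F D E x i))
      (Submodule.span K (Set.range T)) := by
    rw [Submodule.disjoint_def]
    intro z hz1 hz2
    have h1 : z ∈ Sp d F D E x := by
      refine Submodule.span_mono ?_ hz1
      rintro _ ⟨i, rfl⟩
      exact ⟨i, rfl⟩
    have h2 := Phi_Sp (α := α) (β := β) hF hD hE hv hm h1
    rw [Submodule.mem_span_range_iff_exists_fun] at hz2
    obtain ⟨c, rfl⟩ := hz2
    refine Finset.sum_eq_zero fun q _ => ?_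
    have h3 := hΦsum c q
    rw [h2, Matrix.zero_apply] at h3
    have h4 : c q * x e ^ d = 0 := by
      rw [← neg_eq_zero]; exact h3.symm
    rw [(mul_eq_zero.1 h4).resolve_right hxd, zero_smul]
  have hli : LinearIndependent K (fun i : b ⊕ (Fin r' × Fin s') => rv d F D E x e α β (ri i)) := by
    have h1 := hbi.sum_type hTi hdisj
    have h2 : (fun i : b ⊕ (Fin r' × Fin s') => rv d F D E x e α β (ri i)) =
        Sum.elim (fun i : b => gen d F D E x i) T := by
      funext i
      rcases i with i | p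
      · rfl
      · exact (hT p).symm
    rw [h2]
    exact h1
  refine ⟨b, hcb, hli, hspan, ?_⟩
  have h1 : Fu d F D E x = Submodule.span K
      (Set.range fun i : b ⊕ (Fin r' × Fin s') => rv d F D E x e α β (ri i)) := by
    apply le_antisymm
    · have h2 : Sp d F D E x ≤ Submodule.span K
          (Set.range fun i : b ⊕ (Fin r' × Fin s') => rv d F D E x e α β (ri i)) := by
        refine hspan.trans (Submodule.span_mono ?_)
        rintro _ ⟨o, ho, rfl⟩
        exact ⟨Sum.inl ⟨o, ho⟩, rfl⟩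
      unfold Fu
      rw [Submodule.span_le]
      rintro _ (⟨o, rfl⟩ | ⟨⟨a, a'⟩, I, hI, rfl⟩)
      · exact h2 (gen_mem x o)
      · have h3 := h2 (Ev_mod_all (D := D) (E := E) hF he hm a a' hI)
        have h4 : ∑ i, ∑ j, (wa (NN F x) α β i a * va (NN F x) α β a' j) •
            Ev D x (α (Sum.inr i), β (Sum.inr j)) (Finsupp.single e d) ∈ Submodule.span K
            (Set.range fun i : b ⊕ (Fin r' × Fin s') => rv d F D E x e α β (ri i)) := by
          refine sum_mem fun i _ => sum_mem fun j _ => Submodule.smul_mem _ _ ?_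
          exact Submodule.subset_span ⟨Sum.inr (i, j), rfl⟩
        have h5 := add_mem h3 (Submodule.smul_mem _ (mon x I / x e ^ d) h4)
        rwa [sub_add_cancel] at h5
    · rw [Submodule.span_le]
      rintro _ ⟨i, rfl⟩
      exact rv_mem_Fu x e _
  rw [h1, finrank_span_eq_card hli, Fintype.card_sum, Fintype.card_coe, Fintype.card_prod,
    Fintype.card_fin, Fintype.card_fin]

end

end Pool.Agent.T6.H19.DV
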