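import Pool.Agent.T6.H19.DV.Chg

/-!
Scaling of the point.
-/

set_option autoImplicit false

open MvPolynomial Pool.Agent.TH145.GH FF Pool.Agent.W603.LV
open Pool.Agent.TH145.GC (Ev Ti tv wv Dual)

namespace Pool.Agent.T6.H19.DV

section

variable {K : Type} [Field K] {R S : Type} {ρ r' s' : ℕ}

theorem mnr_smul (c : K) (N : Matrix R S K) (f : Fin ρ → R) (g : Fin ρ → S) :
    mnr (c • N) f g = c ^ ρ * mnr N f g := by
  unfold mnr
  rw [Matrix.submatrix_smul]
  have := Matrix.det_smul (N.submatrix f g) c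
  rwa [Fintype.card_fin] at this

theorem mna_smul (c : K) (N : Matrix R S K) (α : Fin ρ ⊕ Fin r' ≃ R) (β : Fin ρ ⊕ Fin s' ≃ S) :
    mna (c • N) α β = c ^ ρ * mna N α β := mnr_smul c N _ _

theorem van_smul {c : K} {N : Matrix R S K} {t : ℕ} (h : Van N t) : Van (c • N) t := by
  intro f g
  rw [mnr_smul, h, mul_zero]

theorem mini_smul {k : Type} [Field k] [Algebra k K] {P : Place k K} {N : Matrix R S K} {c : K}
    (hc : c ≠ 0) {f : Fin ρ → R} {g : Fin ρ → S} (h : Mini P N f g) : Mini P (c • N) f g := by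
  have hcp : c ^ ρ ≠ 0 := pow_ne_zero _ hc
  refine ⟨by rw [mnr_smul]; exact mul_ne_zero hcp h.1, fun f' g' h' => ?_⟩
  rw [mnr_smul] at h'
  have h1 := right_ne_zero_of_mul h'
  rw [mnr_smul, mnr_smul, P.ord_mul hcp h.1, P.ord_mul hcp h1]
  have := h.2 f' g' h1
  omega

end

variable {K : Type} [Field K] {n : ℕ} {R S X : Type} [Fintype R] [Fintype S] {ρ r' s' d : ℕ}
  {F : R × S → MvPolynomial (Fin (n + 1)) K}
  {D : R × S → (Fin (n + 1) →₀ ℕ) → Derivation ℤ K K} {E : X → Derivation ℤ K K}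

omit [Fintype R] [Fintype S] in
theorem NN_smul (hF : ∀ p, (F p).IsHomogeneous d) (x : Fin (n + 1) → K) (lam : K) :
    NN F (lam • x) = lam ^ d • NN F x := by
  ext a b
  exact eval_smul_hom (hF _) x lam

/-- The degrees of the rows. -/
def wt : Ix X n R S ⊕ (Fin r' × Fin s') → ℕ
  | Sum.inl none => 1
  | Sum.inl (some (Sum.inl _)) => 1
  | Sum.inl (some (Sum.inr (Sum.inl _))) => 2
  | Sum.inl (some (Sum.inr (Sum.inr _))) => 1
  | Sum.inr _ => 1

theorem ev_scale (D' : Derivation ℤ K K) (x : Fin (n + 1) → K) (lam : K) :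
    ev D' (lam • x) = lam • ev D' x + D' lam • x := by
  funext l
  simp only [ev, Pi.smul_apply, Pi.add_apply, smul_eq_mul]
  rw [D'.leibniz]
  simp only [smul_eq_mul]
  ring

theorem rv_scale (x : Fin (n + 1) → K) (lam : K) (e : Fin (n + 1)) (α : Fin ρ ⊕ Fin r' ≃ R)
    (β : Fin ρ ⊕ Fin s' ≃ S) :
    ∃ s : Ix X n R S ⊕ (Fin r' × Fin s') → K, s (Sum.inl none) = 0 ∧
      ∀ i, rv d F D E (lam • x) e α β i = lam ^ wt i • rv d F D E x e α β i + s i • x := by
  refine ⟨fun i => match i with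
    | Sum.inl none => 0
    | Sum.inl (some (Sum.inl ξ)) => E ξ lam
    | Sum.inl (some (Sum.inr (Sum.inl t))) => if t.2.1.degree + 1 = d then
        lam * (x t.2.2.2 * D t.1 (t.2.1 + Finsupp.single t.2.2.1 1) lam -
          x t.2.2.1 * D t.1 (t.2.1 + Finsupp.single t.2.2.2 1) lam) else 0
    | Sum.inl (some (Sum.inr (Sum.inr (Sum.inl p)))) => Rop F D p.1 p.2 lam
    | Sum.inl (some (Sum.inr (Sum.inr (Sum.inr p)))) => Cop F D p.1 p.2 lam
    | Sum.inr p => D (α (Sum.inr p.1), β (Sum.inr p.2)) (Finsupp.single e d) lam, rfl, ?_⟩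
  rintro ((_ | ξ | t | p | p) | p)
  · simp [rv, gen, wt]
  · simp only [rv, gen, wt, pow_one]
    exact ev_scale _ x lam
  · simp only [rv, gen, wt, tv]
    split_ifs
    · have hE : ∀ a J, Ev D (lam • x) a J = lam • Ev D x a J + D a J lam • x := fun a J =>
        ev_scale (D a J) x lam
      rw [hE, hE]
      funext l
      simp only [Pi.add_apply, Pi.sub_apply, Pi.smul_apply, smul_eq_mul]
      ring
    · simp
  · simp only [rv, gen, wt, pow_one]
    exact ev_scale _ x lam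
  · simp only [rv, gen, wt, pow_one]
    exact ev_scale _ x lam
  · simp only [rv, wt, pow_one]
    exact ev_scale _ x lam

/-- The index of the position vector. -/
def i0 {b : Finset (Ix X n R S)} (hb : none ∈ b) : b ⊕ (Fin r' × Fin s') := Sum.inl ⟨none, hb⟩

/-- The sum of the degrees of the rows. -/
def sw (r' s' : ℕ) (b : Finset (Ix X n R S)) : ℕ := ∑ i : b ⊕ (Fin r' × Fin s'), wt (ri i)

open scoped Classical in
theorem det_lam (x : Fin (n + 1) → K) (lam : K) (e : Fin (n + 1)) (α : Fin ρ ⊕ Fin r' ≃ R)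
    (β : Fin ρ ⊕ Fin s' ≃ S) {b : Finset (Ix X n R S)} (hb : none ∈ b)
    (σ : b ⊕ (Fin r' × Fin s') → Fin (n + 1)) :
    (mt d F D E (lam • x) e α β b σ).det =
      lam ^ sw r' s' b * (mt d F D E x e α β b σ).det := by
  obtain ⟨s, hs0, hs⟩ := rv_scale (d := d) (F := F) (D := D) (E := E) x lam e α β
  have h1 := Pool.Agent.TH145.GC.det_scale_gen
    (fun (i j : b ⊕ (Fin r' × Fin s')) => rv d F D E (lam • x) e α β (ri i) (σ j))
    (fun (i j : b ⊕ (Fin r' × Fin s')) => rv d F D E x e α β (ri i) (σ j))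
    (fun i => lam ^ wt (ri i)) (fun i => s (ri i)) (i0 hb) hs0 (fun i => by
      funext j
      rw [hs]
      rfl)
  rw [Finset.prod_pow_eq_pow_sum] at h1
  exact h1

theorem sw_le (r' s' : ℕ) {b : Finset (Ix X n R S)} (hb : none ∈ b) :
    sw r' s' b + 1 ≤ 2 * b.card + r' * s' := by
  classical
  unfold sw
  rw [Fintype.sum_sum_type]
  have h1 : ∑ q : Fin r' × Fin s', wt (X := X) (n := n) (R := R) (S := S)
      (ri (b := b) (Sum.inr q)) = r' * s' := by
    have h2 : ∀ q : Fin r' × Fin s', wt (X := X) (n := n) (R := R) (S := S)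
      (ri (b := b) (Sum.inr q)) = 1 := fun _ => rfl
    simp only [h2]
    rw [Finset.sum_const, Finset.card_univ, Fintype.card_prod, Fintype.card_fin, Fintype.card_fin,
      smul_eq_mul, mul_one]
  rw [h1]
  have h3 : ∑ o : b, wt (r' := r') (s' := s') (ri (Sum.inl o)) + 1 ≤ 2 * b.card := by
    have h4 : ∀ o : b, wt (r' := r') (s' := s') (ri (Sum.inl o)) ≤ 2 := by
      rintro ⟨(_ | _ | _ | _ | _), _⟩
      · exact one_le_two
      · exact one_le_two
      · exact le_rfl
      · exact one_le_two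
      · exact one_le_two
    rw [← Finset.add_sum_erase Finset.univ _ (Finset.mem_univ (⟨none, hb⟩ : b))]
    have h5 : wt (r' := r') (s' := s') (ri (Sum.inl (⟨none, hb⟩ : b))) = 1 := rfl
    have h6 : ∑ o ∈ Finset.univ.erase (⟨none, hb⟩ : b),
        wt (r' := r') (s' := s') (ri (Sum.inl o)) ≤
        ∑ o ∈ Finset.univ.erase (⟨none, hb⟩ : b), 2 := Finset.sum_le_sum fun o _ => h4 o
    rw [Finset.sum_const, Finset.card_erase_of_mem (Finset.mem_univ _), Finset.card_univ,
      Fintype.card_coe, smul_eq_mul] at h6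
    have h7 : 1 ≤ b.card := Finset.card_pos.2 ⟨_, hb⟩
    rw [h5]
    omega
  omega

theorem Fu_scale_le (x : Fin (n + 1) → K) (lam : K) : Fu d F D E (lam • x) ≤ Fu d F D E x := by
  have hx : x ∈ Fu d F D E x :=
    Submodule.subset_span (Or.inl ⟨none, rfl⟩)
  have hE : ∀ D' : Derivation ℤ K K, ev D' x ∈ Fu d F D E x → ev D' (lam • x) ∈ Fu d F D E x := by
    intro D' h
    rw [ev_scale]
    exact add_mem (Submodule.smul_mem _ _ h) (Submodule.smul_mem _ _ hx)
  have hg : ∀ o, gen d F D E x o ∈ Fu d F D E x := fun o =>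
    Submodule.subset_span (Or.inl ⟨o, rfl⟩)
  unfold Fu
  rw [Submodule.span_le]
  rintro _ (⟨o, rfl⟩ | ⟨p, I, hI, rfl⟩)
  · rcases o with _ | ξ | t | p | p
    · exact Submodule.smul_mem _ _ hx
    · exact hE _ (hg (some (Sum.inl ξ)))
    · by_cases ht : t.2.1.degree + 1 = d
      · have h1 : ∀ l, Ev D (lam • x) t.1 (t.2.1 + Finsupp.single l 1) ∈ Fu d F D E x := fun l =>
          hE _ (Submodule.subset_span (Or.inr ⟨t.1, _, by
            rw [map_add, Finsupp.degree_single, ht], rfl⟩))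
        simp only [gen, tv]
        rw [if_pos ht]
        exact sub_mem (Submodule.smul_mem _ _ (h1 _)) (Submodule.smul_mem _ _ (h1 _))
      · simp only [gen, tv]
        rw [if_neg ht]
        exact zero_mem _
    · exact hE _ (hg (some (Sum.inr (Sum.inr (Sum.inl p)))))
    · exact hE _ (hg (some (Sum.inr (Sum.inr (Sum.inr p)))))
  · exact hE _ (Submodule.subset_span (Or.inr ⟨p, I, hI, rfl⟩))

theorem Fu_scale_eq (x : Fin (n + 1) → K) {lam : K} (hl : lam ≠ 0) :
    Fu d F D E (lam • x) = Fu d F D E x := by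
  apply le_antisymm (Fu_scale_le x lam)
  have h1 := Fu_scale_le (d := d) (F := F) (D := D) (E := E) (lam • x) lam⁻¹
  rwa [smul_smul, inv_mul_cancel₀ hl, one_smul] at h1

end Pool.Agent.T6.H19.DV
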