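import Pool.Agent.TH145.GC.Local
import Pool.Agent.T6.H19.DV.Fact2

/-!
Vector fields tangent to generic determinantal varieties.
-/

set_option autoImplicit false

open MvPolynomial Pool.Agent.TH145.GH
open Pool.Agent.TH145.GC (Ev Ti tv wv Dual dF_Ev dF_sub dF_self dF_tv Ev_mod)

namespace Pool.Agent.T6.H19.DV

variable {K : Type} [Field K] {n : ℕ} {R S X : Type}

/-- The vector given by a derivation. -/
def ev (E : Derivation ℤ K K) (x : Fin (n + 1) → K) : Fin (n + 1) → K := fun l => E (x l)

/-- The values of the forms. -/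
noncomputable def NN (F : R × S → MvPolynomial (Fin (n + 1)) K) (x : Fin (n + 1) → K) :
    Matrix R S K := Matrix.of fun a b => eval x (F (a, b))

/-- The differential of the matrix. -/
noncomputable def dN (F : R × S → MvPolynomial (Fin (n + 1)) K) (x : Fin (n + 1) → K) :
    (Fin (n + 1) → K) →ₗ[K] Matrix R S K where
  toFun z := Matrix.of fun a b => dF (F (a, b)) x z
  map_add' y z := by
    ext a b
    exact dF_add _ _ _ _
  map_smul' c z := by
    ext a b
    exact dF_smul _ _ _ _

theorem dN_apply (F : R × S → MvPolynomial (Fin (n + 1)) K) (x z : Fin (n + 1) → K) (a : R)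
    (b : S) : dN F x z a b = dF (F (a, b)) x z := rfl

section ops

variable [Fintype R] [Fintype S]

/-- The derivation which adds row `a'` to row `a`. -/
noncomputable def Rop (F : R × S → MvPolynomial (Fin (n + 1)) K)
    (D : R × S → (Fin (n + 1) →₀ ℕ) → Derivation ℤ K K) (a a' : R) : Derivation ℤ K K :=
  ∑ b : S, ∑ I ∈ (F (a', b)).support, (F (a', b)).coeff I • D (a, b) I

/-- The derivation which adds column `b'` to column `b`. -/
noncomputable def Cop (F : R × S → MvPolynomial (Fin (n + 1)) K)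
    (D : R × S → (Fin (n + 1) →₀ ℕ) → Derivation ℤ K K) (b b' : S) : Derivation ℤ K K :=
  ∑ a : R, ∑ I ∈ (F (a, b')).support, (F (a, b')).coeff I • D (a, b) I

theorem sum_der {ι : Type} (s : Finset ι) (D : ι → Derivation ℤ K K) (f : K) :
    (∑ i ∈ s, D i) f = ∑ i ∈ s, D i f := by
  rw [← Derivation.coeFnAddMonoidHom_apply, map_sum, Finset.sum_apply]
  rfl

theorem Rop_apply (F : R × S → MvPolynomial (Fin (n + 1)) K)
    (D : R × S → (Fin (n + 1) →₀ ℕ) → Derivation ℤ K K) (a a' : R) (f : K) :
    Rop F D a a' f = ∑ b : S, ∑ I ∈ (F (a', b)).support, (F (a', b)).coeff I * D (a, b) I f := by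
  unfold Rop
  rw [sum_der]
  refine Finset.sum_congr rfl fun b _ => ?_
  rw [sum_der]
  rfl

theorem Cop_apply (F : R × S → MvPolynomial (Fin (n + 1)) K)
    (D : R × S → (Fin (n + 1) →₀ ℕ) → Derivation ℤ K K) (b b' : S) (f : K) :
    Cop F D b b' f = ∑ a : R, ∑ I ∈ (F (a, b')).support, (F (a, b')).coeff I * D (a, b) I f := by
  unfold Cop
  rw [sum_der]
  refine Finset.sum_congr rfl fun b _ => ?_
  rw [sum_der]
  rfl

theorem ev_Rop (F : R × S → MvPolynomial (Fin (n + 1)) K)
    (D : R × S → (Fin (n + 1) →₀ ℕ) → Derivation ℤ K K) (x : Fin (n + 1) → K) (a a' : R) :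
    ev (Rop F D a a') x =
      ∑ b : S, ∑ I ∈ (F (a', b)).support, (F (a', b)).coeff I • Ev D x (a, b) I := by
  funext l
  rw [Finset.sum_apply]
  simp only [Finset.sum_apply, Pi.smul_apply, smul_eq_mul]
  exact Rop_apply F D a a' (x l)

theorem ev_Cop (F : R × S → MvPolynomial (Fin (n + 1)) K)
    (D : R × S → (Fin (n + 1) →₀ ℕ) → Derivation ℤ K K) (x : Fin (n + 1) → K) (b b' : S) :
    ev (Cop F D b b') x =
      ∑ a : R, ∑ I ∈ (F (a, b')).support, (F (a, b')).coeff I • Ev D x (a, b) I := by
  funext l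
  rw [Finset.sum_apply]
  simp only [Finset.sum_apply, Pi.smul_apply, smul_eq_mul]
  exact Cop_apply F D b b' (x l)

end ops

theorem eval_sum (G : MvPolynomial (Fin (n + 1)) K) (x : Fin (n + 1) → K) :
    ∑ I ∈ G.support, G.coeff I * mon x I = eval x G := by
  rw [eval_eq']
  rfl

theorem single_mul_entry {R : Type} [Fintype R] [DecidableEq R] (N : Matrix R S K) (a a' i : R)
    (j : S) : (Matrix.single a a' (1 : K) * N) i j = if a = i then N a' j else 0 := by
  rw [Matrix.mul_apply, Finset.sum_eq_single a']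
  · rw [Matrix.single_apply]
    by_cases h : a = i
    · rw [if_pos ⟨h, rfl⟩, if_pos h, one_mul]
    · rw [if_neg (by tauto), if_neg h, zero_mul]
  · intro b _ hb
    rw [Matrix.single_apply, if_neg (by tauto), zero_mul]
  · intro h; exact absurd (Finset.mem_univ _) h

theorem mul_single_entry {S : Type} [Fintype S] [DecidableEq S] (N : Matrix R S K) (b' b : S)
    (i : R) (j : S) : (N * Matrix.single b' b (1 : K)) i j = if b = j then N i b' else 0 := by
  rw [Matrix.mul_apply, Finset.sum_eq_single b']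
  · rw [Matrix.single_apply]
    by_cases h : b = j
    · rw [if_pos ⟨rfl, h⟩, if_pos h, mul_one]
    · rw [if_neg (by tauto), if_neg h, mul_zero]
  · intro a _ ha
    rw [Matrix.single_apply, if_neg (by tauto), mul_zero]
  · intro h; exact absurd (Finset.mem_univ _) h

section dN

variable {F : R × S → MvPolynomial (Fin (n + 1)) K} {d : ℕ}
  {D : R × S → (Fin (n + 1) →₀ ℕ) → Derivation ℤ K K} [DecidableEq R] [DecidableEq S]

theorem dN_Ev (hF : ∀ p, (F p).IsHomogeneous d) (hD : Dual F (fun _ => d) D)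
    (x : Fin (n + 1) → K) (a : R) (b : S) {I : Fin (n + 1) →₀ ℕ} (hI : I.degree = d) :
    dN F x (Ev D x (a, b) I) = (NN F x).map (D (a, b) I) - mon x I • Matrix.single a b 1 := by
  ext a' b'
  rw [dN_apply, dF_Ev (dg := fun _ => d) hF hD x hI, Matrix.sub_apply, Matrix.map_apply,
    Matrix.smul_apply, Matrix.single_apply]
  congr 1
  by_cases h : a = a' ∧ b = b'
  · rw [if_pos (by rw [h.1, h.2]), if_pos h]
    simp
  · rw [if_neg (by
      intro h'
      exact h (Prod.mk_inj.1 h')), if_neg h]
    simp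

theorem dN_self (hF : ∀ p, (F p).IsHomogeneous d) (x : Fin (n + 1) → K) :
    dN F x x = (d : K) • NN F x := by
  ext a b
  rw [dN_apply, dF_self (hF _)]
  rfl

theorem dN_tv (hF : ∀ p, (F p).IsHomogeneous d) (hD : Dual F (fun _ => d) D)
    (x : Fin (n + 1) → K) (t : Ti n (R × S)) (ht : t.2.1.degree + 1 = d) :
    dN F x (tv (fun _ => d) D x t) =
      x t.2.2.2 • (NN F x).map (D t.1 (t.2.1 + Finsupp.single t.2.2.1 1)) -
      x t.2.2.1 • (NN F x).map (D t.1 (t.2.1 + Finsupp.single t.2.2.2 1)) := by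
  ext a b
  rw [dN_apply, dF_tv (dg := fun _ => d) hF hD x (a, b) t ht]
  rfl

theorem dN_tv0 (x : Fin (n + 1) → K) (t : Ti n (R × S)) (ht : ¬ t.2.1.degree + 1 = d) :
    dN F x (tv (fun _ => d) D x t) = 0 := by
  have h1 : tv (fun _ => d) D x t = 0 := by
    unfold tv
    rw [if_neg ht]
  rw [h1, map_zero]

theorem dN_ev {E : Derivation ℤ K K} (hE : ∀ p u, E ((F p).coeff u) = 0)
    (x : Fin (n + 1) → K) : dN F x (ev E x) = (NN F x).map E := by
  ext a b
  have h1 := chainM E x (F (a, b))
  rw [Finset.sum_eq_zero fun u _ => by rw [hE, zero_mul], zero_add] at h1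
  rw [dN_apply, Matrix.map_apply]
  exact h1.symm

variable [Fintype R] [Fintype S]

theorem map_Rop (N : Matrix R S K) (a a' : R) : N.map (Rop F D a a') =
    ∑ b : S, ∑ I ∈ (F (a', b)).support, (F (a', b)).coeff I • N.map (D (a, b) I) := by
  ext i j
  rw [Matrix.map_apply, Rop_apply, Matrix.sum_apply]
  refine Finset.sum_congr rfl fun b _ => ?_
  rw [Matrix.sum_apply]
  rfl

theorem map_Cop (N : Matrix R S K) (b b' : S) : N.map (Cop F D b b') =
    ∑ a : R, ∑ I ∈ (F (a, b')).support, (F (a, b')).coeff I • N.map (D (a, b) I) := by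
  ext i j
  rw [Matrix.map_apply, Cop_apply, Matrix.sum_apply]
  refine Finset.sum_congr rfl fun b _ => ?_
  rw [Matrix.sum_apply]
  rfl

theorem dN_Rop (hF : ∀ p, (F p).IsHomogeneous d) (hD : Dual F (fun _ => d) D)
    (x : Fin (n + 1) → K) (a a' : R) :
    dN F x (ev (Rop F D a a') x) =
      (NN F x).map (Rop F D a a') - Matrix.single a a' (1 : K) * NN F x := by
  rw [ev_Rop, map_sum, map_Rop]
  have h1 : Matrix.single a a' (1 : K) * NN F x =
      ∑ b : S, NN F x a' b • Matrix.single a b (1 : K) := by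
    ext i j
    rw [Matrix.sum_apply, Finset.sum_eq_single j]
    · rw [Matrix.smul_apply, Matrix.single_apply, single_mul_entry]
      by_cases hi : a = i
      · rw [if_pos hi, if_pos ⟨hi, rfl⟩, smul_eq_mul, mul_one]
      · rw [if_neg hi, if_neg (by tauto), smul_zero]
    · intro b _ hb
      rw [Matrix.smul_apply, Matrix.single_apply, if_neg (by tauto), smul_zero]
    · intro h; exact absurd (Finset.mem_univ _) h
  rw [h1, ← Finset.sum_sub_distrib]
  refine Finset.sum_congr rfl fun b _ => ?_
  rw [map_sum]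
  have h2 : NN F x a' b • Matrix.single a b (1 : K) =
      ∑ I ∈ (F (a', b)).support, ((F (a', b)).coeff I * mon x I) • Matrix.single a b (1 : K) := by
    rw [← Finset.sum_smul, eval_sum]
    rfl
  rw [h2, ← Finset.sum_sub_distrib]
  refine Finset.sum_congr rfl fun I hI => ?_
  rw [map_smul, dN_Ev hF hD x a b (deg_of_mem (hF _) hI), smul_sub, smul_smul]

theorem dN_Cop (hF : ∀ p, (F p).IsHomogeneous d) (hD : Dual F (fun _ => d) D)
    (x : Fin (n + 1) → K) (b b' : S) :
    dN F x (ev (Cop F D b b') x) =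
      (NN F x).map (Cop F D b b') - NN F x * Matrix.single b' b (1 : K) := by
  rw [ev_Cop, map_sum, map_Cop]
  have h1 : NN F x * Matrix.single b' b (1 : K) =
      ∑ a : R, NN F x a b' • Matrix.single a b (1 : K) := by
    ext i j
    rw [Matrix.sum_apply, Finset.sum_eq_single i]
    · rw [Matrix.smul_apply, Matrix.single_apply, mul_single_entry]
      by_cases hj : b = j
      · rw [if_pos hj, if_pos ⟨rfl, hj⟩, smul_eq_mul, mul_one]
      · rw [if_neg hj, if_neg (by tauto), smul_zero]
    · intro a _ ha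
      rw [Matrix.smul_apply, Matrix.single_apply, if_neg (by tauto), smul_zero]
    · intro h; exact absurd (Finset.mem_univ _) h
  rw [h1, ← Finset.sum_sub_distrib]
  refine Finset.sum_congr rfl fun a _ => ?_
  rw [map_sum]
  have h2 : NN F x a b' • Matrix.single a b (1 : K) =
      ∑ I ∈ (F (a, b')).support, ((F (a, b')).coeff I * mon x I) • Matrix.single a b (1 : K) := by
    rw [← Finset.sum_smul, eval_sum]
    rfl
  rw [h2, ← Finset.sum_sub_distrib]
  refine Finset.sum_congr rfl fun I hI => ?_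
  rw [map_smul, dN_Ev hF hD x a b (deg_of_mem (hF _) hI), smul_sub, smul_smul]

end dN

end Pool.Agent.T6.H19.DV
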